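import Mathlib

/-!
# Ramsey's theorem for pairs, and a product version

* `ramsey`: finite Ramsey theorem for colourings of pairs with finitely many colours.
* `product_ramsey`: for colourings of (pair of rows) x (pair of columns).
-/

namespace Pool.Agent.Helper98.Ramsey

open Finset

variable {κ : Type*} [Finite κ]

lemma end_homogeneous (χ : ℕ → ℕ → κ) (t : ℕ) : ∀ S : Finset ℕ, (Nat.card κ + 1) ^ t ≤ S.card →
    ∃ f : Fin t → ℕ, StrictMono f ∧ (∀ i, f i ∈ S) ∧ ∃ q : Fin t → κ, ∀ i j, i < j →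
      χ (f i) (f j) = q i := by
  classical
  have := Fintype.ofFinite κ
  induction t with
  | zero =>
    intro S _
    exact ⟨fun i => i.elim0, fun i => i.elim0, fun i => i.elim0, fun i => i.elim0,
      fun i => i.elim0⟩
  | succ t ih =>
    intro S hS
    have hpos : 0 < (Nat.card κ + 1) ^ (t + 1) := by positivity
    have hne : S.Nonempty := by
      rw [← Finset.card_pos]; omega
    set x := S.min' hne with hx
    have hxS : x ∈ S := Finset.min'_mem S hne
    have hcard : (Finset.univ : Finset κ).card * (Nat.card κ + 1) ^ t ≤ (S.erase x).card := by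
      rw [Finset.card_erase_of_mem hxS, Finset.card_univ, ← Nat.card_eq_fintype_card]
      have h1 : (Nat.card κ + 1) ^ (t + 1) = Nat.card κ * (Nat.card κ + 1) ^ t
          + (Nat.card κ + 1) ^ t := by ring
      have h2 : 0 < (Nat.card κ + 1) ^ t := by positivity
      omega
    have hκ : (Finset.univ : Finset κ).Nonempty := ⟨χ 0 0, Finset.mem_univ _⟩
    obtain ⟨q0, -, hq0⟩ := Finset.exists_le_card_fiber_of_mul_le_card_of_maps_to
      (f := fun y => χ x y) (fun a _ => Finset.mem_univ _) hκ hcard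
    obtain ⟨f, hf, hfS, q, hq⟩ := ih _ hq0
    have hmem : ∀ i, f i ∈ S ∧ x < f i ∧ χ x (f i) = q0 := by
      intro i
      have := hfS i
      rw [Finset.mem_filter, Finset.mem_erase] at this
      refine ⟨this.1.2, lt_of_le_of_ne (Finset.min'_le S _ this.1.2) (Ne.symm this.1.1), this.2⟩
    refine ⟨Fin.cons x f, ?_, ?_, Fin.cons q0 q, ?_⟩
    · intro i j hij
      refine Fin.cases ?_ (fun i => ?_) i (motive := fun i => i < j →
        (Fin.cons x f : Fin (t + 1) → ℕ) i < (Fin.cons x f : Fin (t + 1) → ℕ) j) hij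
      · intro hij
        refine Fin.cases (fun h => absurd h (lt_irrefl _)) (fun j _ => ?_) j
          (motive := fun j => 0 < j → (Fin.cons x f : Fin (t + 1) → ℕ) 0
            < (Fin.cons x f : Fin (t + 1) → ℕ) j) hij
        simp only [Fin.cons_zero, Fin.cons_succ]
        exact (hmem j).2.1
      · intro hij
        refine Fin.cases (fun h => absurd h (Fin.not_lt_zero _)) (fun j h => ?_) j
          (motive := fun j => i.succ < j → (Fin.cons x f : Fin (t + 1) → ℕ) i.succ
            < (Fin.cons x f : Fin (t + 1) → ℕ) j) hij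
        simp only [Fin.cons_succ]
        exact hf (Fin.succ_lt_succ_iff.1 h)
    · intro i
      refine Fin.cases ?_ (fun i => ?_) i
      · simpa using hxS
      · simpa using (hmem i).1
    · intro i j hij
      refine Fin.cases ?_ (fun i => ?_) i (motive := fun i => i < j →
        χ ((Fin.cons x f : Fin (t + 1) → ℕ) i) ((Fin.cons x f : Fin (t + 1) → ℕ) j)
          = (Fin.cons q0 q : Fin (t + 1) → κ) i) hij
      · intro hij
        refine Fin.cases (fun h => absurd h (lt_irrefl _)) (fun j _ => ?_) j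
          (motive := fun j => 0 < j → χ ((Fin.cons x f : Fin (t + 1) → ℕ) 0)
            ((Fin.cons x f : Fin (t + 1) → ℕ) j) = (Fin.cons q0 q : Fin (t + 1) → κ) 0) hij
        simp only [Fin.cons_zero, Fin.cons_succ]
        exact (hmem j).2.2
      · intro hij
        refine Fin.cases (fun h => absurd h (Fin.not_lt_zero _)) (fun j h => ?_) j
          (motive := fun j => i.succ < j → χ ((Fin.cons x f : Fin (t + 1) → ℕ) i.succ)
            ((Fin.cons x f : Fin (t + 1) → ℕ) j) = (Fin.cons q0 q : Fin (t + 1) → κ) i.succ) hij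
        simp only [Fin.cons_succ]
        exact hq i j (Fin.succ_lt_succ_iff.1 h)

/-- The finite Ramsey theorem for pairs and finitely many colours. -/
theorem ramsey (κ : Type*) [Finite κ] (m : ℕ) : ∃ N : ℕ, ∀ χ : ℕ → ℕ → κ,
    ∃ f : Fin m → ℕ, StrictMono f ∧ (∀ i, f i < N) ∧ ∃ q : κ, ∀ i j, i < j →
      χ (f i) (f j) = q := by
  classical
  have := Fintype.ofFinite κ
  refine ⟨(Nat.card κ + 1) ^ (Nat.card κ * m), fun χ => ?_⟩
  obtain ⟨f, hf, hfN, q, hq⟩ := end_homogeneous χ (Nat.card κ * m)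
    (Finset.range ((Nat.card κ + 1) ^ (Nat.card κ * m))) (by simp)
  have hκ : (Finset.univ : Finset κ).Nonempty := ⟨χ 0 0, Finset.mem_univ _⟩
  have hcard : (Finset.univ : Finset κ).card * m ≤
      (Finset.univ : Finset (Fin (Nat.card κ * m))).card := by
    rw [Finset.card_univ, ← Nat.card_eq_fintype_card]
    simp
  obtain ⟨q0, -, hq0⟩ := Finset.exists_le_card_fiber_of_mul_le_card_of_maps_to
      (f := q) (fun a _ => Finset.mem_univ _) hκ hcard
  obtain ⟨A, hA, hAc⟩ := Finset.exists_subset_card_eq hq0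
  let g := A.orderEmbOfFin hAc
  refine ⟨fun i => f (g i), fun i j hij => hf (g.strictMono hij),
    fun i => Finset.mem_range.1 (hfN _), q0, fun i j hij => ?_⟩
  have h1 : g i ∈ A := Finset.orderEmbOfFin_mem A hAc i
  have h2 := hA h1
  rw [Finset.mem_filter] at h2
  change χ (f (g i)) (f (g j)) = q0
  rw [hq _ _ (g.strictMono hij), h2.2]

/-- Product Ramsey theorem: a colouring of (pairs of rows) x (pairs of columns) of a large grid is
constant on the pairs of some `m` rows and `m` columns. -/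
theorem product_ramsey (κ : Type*) [Finite κ] (m : ℕ) : ∃ N : ℕ, ∀ χ : ℕ → ℕ → ℕ → ℕ → κ,
    ∃ f g : Fin m → ℕ, StrictMono f ∧ StrictMono g ∧ (∀ i, f i < N) ∧ (∀ i, g i < N) ∧
      ∃ q : κ, ∀ i j i' j', i < i' → j < j' → χ (f i) (f i') (g j) (g j') = q := by
  obtain ⟨N₂, hN₂⟩ := ramsey κ m
  obtain ⟨N₁, hN₁⟩ := ramsey (Fin N₂ → Fin N₂ → κ) m
  refine ⟨max N₁ N₂, fun χ => ?_⟩
  obtain ⟨f, hf, hfN, Q, hQ⟩ := hN₁ (fun a a' b b' => χ a a' b b')
  obtain ⟨g, hg, hgN, q, hq⟩ := hN₂ (fun b b' => if h : b < N₂ ∧ b' < N₂ then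
    Q ⟨b, h.1⟩ ⟨b', h.2⟩ else χ 0 0 0 0)
  refine ⟨f, g, hf, hg, fun i => lt_of_lt_of_le (hfN i) (le_max_left _ _),
    fun i => lt_of_lt_of_le (hgN i) (le_max_right _ _), q, fun i j i' j' hi hj => ?_⟩
  have h1 := hq j j' hj
  rw [dif_pos ⟨hgN j, hgN j'⟩] at h1
  rw [← h1, ← hQ i i' hi]

end Pool.Agent.Helper98.Ramsey
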