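import Pool.Agent.Helper62.AC.Defs

/-!
# MP_917a41_gt, packet G
-/

open Set Topology TopologicalSpace Filter

namespace Pool.Agent.Helper98.ACG

open Pool.Agent.Helper62.AC

theorem stmtG1 : StmtG1 := by
  intro P ι Y _ _ C hC hCne F hF ε hε hclose
  have key : ∀ U : Set Y, IsOpen U → C ⊆ U →
      ∃ S : Set ι, S.Finite ∧ ∀ k, k ∉ S → ∀ p t, F k p t ∈ U := by
    intro U hU hCU
    obtain ⟨δ, hδ, hsub⟩ := hC.exists_thickening_subset_open hU hCU
    refine ⟨{k | ¬ ε k < δ}, ?_, ?_⟩
    · have h1 : ∀ᶠ k in cofinite, ε k < δ := hε.eventually_lt_const hδ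
      exact Filter.eventually_cofinite.1 h1
    · intro k hk p t
      have hk' : ε k < δ := not_not.1 hk
      obtain ⟨y, hy, hd⟩ := hclose k p t
      apply hsub
      rw [Metric.mem_thickening_iff]
      exact ⟨y, hy, lt_of_le_of_lt hd hk'⟩
  have hrange : ∀ k p, IsCompact (range (F k p)) := fun k p =>
    isCompact_range ((hF k).comp (by fun_prop : Continuous fun t : unitInterval => (p, t)))
  have hcomp : ∀ p, IsCompact (C ∪ ⋃ k, range (F k p)) := by
    classical
    intro p
    apply isCompact_of_finite_subcover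
    intro κ U hU hs
    obtain ⟨t1, ht1⟩ := hC.elim_finite_subcover U hU (subset_union_left.trans hs)
    obtain ⟨S, hS, hk⟩ := key (⋃ i ∈ t1, U i) (isOpen_biUnion fun i _ => hU i) ht1
    obtain ⟨t2, ht2⟩ := (hS.isCompact_biUnion fun k _ => hrange k p).elim_finite_subcover U hU (by
      refine Subset.trans ?_ hs
      refine Subset.trans ?_ subset_union_right
      exact iUnion₂_subset fun k _ => subset_iUnion (fun k => range (F k p)) k)
    refine ⟨t1 ∪ t2, ?_⟩
    have e1 : (⋃ i ∈ t1, U i) ⊆ ⋃ i ∈ t1 ∪ t2, U i :=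
      biUnion_subset_biUnion_left fun i hi => Finset.mem_union_left _ hi
    have e2 : (⋃ i ∈ t2, U i) ⊆ ⋃ i ∈ t1 ∪ t2, U i :=
      biUnion_subset_biUnion_left fun i hi => Finset.mem_union_right _ hi
    refine union_subset (ht1.trans e1) (iUnion_subset fun k => ?_)
    by_cases hkS : k ∈ S
    · refine Subset.trans ?_ (ht2.trans e2)
      exact subset_biUnion_of_mem (u := fun k => range (F k p)) hkS
    · rintro _ ⟨t, rfl⟩
      exact e1 (hk k hkS p t)
  refine ⟨fun p => ⟨⟨C ∪ ⋃ k, range (F k p), hcomp p⟩, hCne.mono subset_union_left⟩, ?_,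
    fun p => rfl⟩
  rw [continuous_induced_rng]
  apply continuous_generateFrom_iff.2
  rintro _ (⟨U, hU, rfl⟩ | ⟨U, hU, rfl⟩)
  · show IsOpen {p | C ∪ ⋃ k, range (F k p) ⊆ U}
    by_cases hCU : C ⊆ U
    · obtain ⟨S, hS, hk⟩ := key U hU hCU
      have h1 : {p | C ∪ ⋃ k, range (F k p) ⊆ U} = ⋂ k ∈ S, {p | ∀ t, F k p t ∈ U} := by
        ext p
        simp only [mem_setOf_eq, mem_iInter, union_subset_iff, iUnion_subset_iff,
          range_subset_iff]
        constructor
        · intro h k _ t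
          exact h.2 k t
        · intro h
          refine ⟨hCU, fun k t => ?_⟩
          by_cases hkS : k ∈ S
          · exact h k hkS t
          · exact hk k hkS p t
      rw [h1]
      refine hS.isOpen_biInter fun k _ => ?_
      have h2 : {p | ∀ t, F k p t ∈ U} =
          (Prod.fst '' {q : P × unitInterval | F k q.1 q.2 ∈ Uᶜ})ᶜ := by
        ext p
        simp only [mem_setOf_eq, mem_compl_iff, mem_image, Prod.exists, exists_and_right,
          exists_eq_right, not_exists, not_not]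
      rw [h2]
      exact (isClosedMap_fst_of_compactSpace _ (hU.isClosed_compl.preimage (hF k))).isOpen_compl
    · have h1 : {p | C ∪ ⋃ k, range (F k p) ⊆ U} = ∅ := by
        ext p
        simp only [mem_setOf_eq, mem_empty_iff_false, iff_false]
        exact fun h => hCU (subset_union_left.trans h)
      rw [h1]
      exact isOpen_empty
  · show IsOpen {p | ((C ∪ ⋃ k, range (F k p)) ∩ U).Nonempty}
    by_cases hCU : (C ∩ U).Nonempty
    · have h1 : {p | ((C ∪ ⋃ k, range (F k p)) ∩ U).Nonempty} = univ := by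
        ext p
        simp only [mem_setOf_eq, mem_univ, iff_true]
        exact hCU.mono (inter_subset_inter_left _ subset_union_left)
      rw [h1]
      exact isOpen_univ
    · have h1 : {p | ((C ∪ ⋃ k, range (F k p)) ∩ U).Nonempty} =
          ⋃ k, ⋃ t, {p | F k p t ∈ U} := by
        ext p
        simp only [mem_setOf_eq, mem_iUnion]
        constructor
        · rintro ⟨y, hy | hy, hyU⟩
          · exact absurd ⟨y, hy, hyU⟩ hCU
          · rw [mem_iUnion] at hy
            obtain ⟨k, t, rfl⟩ := hy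
            exact ⟨k, t, hyU⟩
        · rintro ⟨k, t, h⟩
          exact ⟨F k p t, Or.inr (mem_iUnion.2 ⟨k, t, rfl⟩), h⟩
      rw [h1]
      refine isOpen_iUnion fun k => isOpen_iUnion fun t => ?_
      exact hU.preimage ((hF k).comp (by fun_prop : Continuous fun p : P => (p, t)))

theorem stmtG2 : StmtG2 := by
  intro Y _ _
  rw [← isOpen_compl_iff, isOpen_iff_forall_mem_open]
  intro K hK
  have hK' : ¬ IsPreconnected (K : Set Y) := fun h => hK ⟨K.nonempty, h⟩
  rw [isPreconnected_closed_iff] at hK'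
  push Not at hK'
  obtain ⟨A, B, hA, hB, hAB, hKA, hKB, hdis⟩ := hK'
  have hsep : SeparatedNhds ((K : Set Y) ∩ A) ((K : Set Y) ∩ B) := by
    apply SeparatedNhds.of_isCompact_isCompact (K.isCompact.inter_right hA)
      (K.isCompact.inter_right hB)
    rw [Set.disjoint_iff]
    rintro y ⟨⟨h1, h2⟩, _, h3⟩
    have : y ∈ (K : Set Y) ∩ (A ∩ B) := ⟨h1, h2, h3⟩
    rw [hdis] at this
    exact this
  obtain ⟨U, V, hU, hV, hAU, hBV, hUV⟩ := hsep
  refine ⟨{K' : NonemptyCompacts Y | (K' : Set Y) ⊆ U ∪ V} ∩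
    {K' : NonemptyCompacts Y | ((K' : Set Y) ∩ U).Nonempty} ∩
    {K' : NonemptyCompacts Y | ((K' : Set Y) ∩ V).Nonempty}, ?_, ?_, ?_⟩
  · rintro K' ⟨⟨h1, h2⟩, h3⟩ hcon
    obtain ⟨y, _, hyU, hyV⟩ := hcon.isPreconnected U V hU hV h1 h2 h3
    exact Set.disjoint_left.1 hUV hyU hyV
  · exact ((NonemptyCompacts.isOpen_subsets_of_isOpen (hU.union hV)).inter
      (NonemptyCompacts.isOpen_inter_nonempty_of_isOpen hU)).inter
      (NonemptyCompacts.isOpen_inter_nonempty_of_isOpen hV)
  · refine ⟨⟨?_, ?_⟩, ?_⟩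
    · intro y hy
      rcases hAB hy with h | h
      · exact Or.inl (hAU ⟨hy, h⟩)
      · exact Or.inr (hBV ⟨hy, h⟩)
    · obtain ⟨y, hy, hyA⟩ := hKA
      exact ⟨y, hy, hAU ⟨hy, hyA⟩⟩
    · obtain ⟨y, hy, hyB⟩ := hKB
      exact ⟨y, hy, hBV ⟨hy, hyB⟩⟩

end Pool.Agent.Helper98.ACG
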