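import Mathlib

/-!
# The Marcus-Tardos theorem and the Klazar counting bound

A finite set `S` of points of `ℕ × ℕ` contains the permutation `π` of `Fin k` if there are
strictly increasing `f, g : Fin k → ℕ` with `(f i, g (π i)) ∈ S` for all `i`.
* `marcus_tardos`: sets avoiding `π` inside an `n × n` box have `O(n)` points.
* `card_avoiding_le`: there are at most `C ^ n` such sets.
-/

namespace Pool.Agent.Helper98.MT

open Finset

/-- `S` contains the permutation `π`. -/
def Contains {k : ℕ} (π : Equiv.Perm (Fin k)) (S : Finset (ℕ × ℕ)) : Prop :=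
  ∃ f g : Fin k → ℕ, StrictMono f ∧ StrictMono g ∧ ∀ i, (f i, g (π i)) ∈ S

/-- The contraction of `S` with blocks of size `s`. -/
def contract (s : ℕ) (S : Finset (ℕ × ℕ)) : Finset (ℕ × ℕ) :=
  S.image (fun p => (p.1 / s, p.2 / s))

/-- The part of `S` in block `b`. -/
def block (s : ℕ) (S : Finset (ℕ × ℕ)) (b : ℕ × ℕ) : Finset (ℕ × ℕ) :=
  S.filter (fun p => (p.1 / s, p.2 / s) = b)

/-- First coordinates of the part of `S` in block `b`. -/
def rows (s : ℕ) (S : Finset (ℕ × ℕ)) (b : ℕ × ℕ) : Finset ℕ := (block s S b).image Prod.fst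

/-- Second coordinates of the part of `S` in block `b`. -/
def cols (s : ℕ) (S : Finset (ℕ × ℕ)) (b : ℕ × ℕ) : Finset ℕ := (block s S b).image Prod.snd

variable {k : ℕ} {π : Equiv.Perm (Fin k)} {S : Finset (ℕ × ℕ)} {s : ℕ}

lemma mem_block {b p : ℕ × ℕ} : p ∈ block s S b ↔ p ∈ S ∧ p.1 / s = b.1 ∧ p.2 / s = b.2 := by
  simp [block, Prod.ext_iff]

lemma contains_of_contract (h : Contains π (contract s S)) : Contains π S := by
  obtain ⟨f, g, hf, hg, hfg⟩ := h
  have h1 : ∀ i, ∃ p ∈ S, p.1 / s = f i ∧ p.2 / s = g (π i) := by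
    intro i
    obtain ⟨p, hp, he⟩ := Finset.mem_image.1 (hfg i)
    exact ⟨p, hp, (Prod.mk.inj he).1, (Prod.mk.inj he).2⟩
  choose p hp h1 h2 using h1
  refine ⟨fun i => (p i).1, fun j => (p (π.symm j)).2, ?_, ?_, ?_⟩
  · intro i j hij
    have := hf hij
    rw [← h1 i, ← h1 j] at this
    exact lt_of_not_ge fun h => absurd (Nat.div_le_div_right h) (not_le.2 this)
  · intro i j hij
    have := hg hij
    have e1 := h2 (π.symm i)
    have e2 := h2 (π.symm j)
    rw [Equiv.apply_symm_apply] at e1 e2
    rw [← e1, ← e2] at this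
    exact lt_of_not_ge fun h => absurd (Nat.div_le_div_right h) (not_le.2 this)
  · intro i
    simp only [Equiv.symm_apply_apply]
    exact hp i

lemma rows_subset (hs : 0 < s) (b : ℕ × ℕ) : rows s S b ⊆ Ico (b.1 * s) (b.1 * s + s) := by
  intro x hx
  obtain ⟨p, hp, rfl⟩ := Finset.mem_image.1 hx
  obtain ⟨-, h1, -⟩ := mem_block.1 hp
  rw [Finset.mem_Ico, ← h1]
  exact ⟨Nat.div_mul_le_self _ _, Nat.lt_div_mul_add hs⟩

lemma cols_subset (hs : 0 < s) (b : ℕ × ℕ) : cols s S b ⊆ Ico (b.2 * s) (b.2 * s + s) := by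
  intro x hx
  obtain ⟨p, hp, rfl⟩ := Finset.mem_image.1 hx
  obtain ⟨-, -, h1⟩ := mem_block.1 hp
  rw [Finset.mem_Ico, ← h1]
  exact ⟨Nat.div_mul_le_self _ _, Nat.lt_div_mul_add hs⟩

lemma card_rows_le (hs : 0 < s) (b : ℕ × ℕ) : (rows s S b).card ≤ s := by
  have := Finset.card_le_card (rows_subset (S := S) hs b)
  simpa using this

lemma card_cols_le (hs : 0 < s) (b : ℕ × ℕ) : (cols s S b).card ≤ s := by
  have := Finset.card_le_card (cols_subset (S := S) hs b)
  simpa using this

lemma card_block_le (b : ℕ × ℕ) : (block s S b).card ≤ (rows s S b).card * (cols s S b).card := by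
  rw [← Finset.card_product]
  apply Finset.card_le_card
  intro p hp
  rw [Finset.mem_product]
  exact ⟨Finset.mem_image_of_mem _ hp, Finset.mem_image_of_mem _ hp⟩

/-- few wide blocks in each block column -/
lemma wide_bound (hs : 0 < s) (hk : 0 < k) (hS : ¬ Contains π S) (m J : ℕ) :
    ((range m).filter (fun I => k ≤ (cols s S (I, J)).card)).card ≤ (k - 1) * 2 ^ s := by
  by_contra hcon
  push Not at hcon
  set F := (range m).filter (fun I => k ≤ (cols s S (I, J)).card) with hF
  set P := (Ico (J * s) (J * s + s)).powerset with hP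
  have hPc : P.card = 2 ^ s := by simp [hP]
  have hmaps : ∀ I ∈ F, cols s S (I, J) ∈ P := by
    intro I _
    rw [hP, Finset.mem_powerset]
    exact cols_subset hs (I, J)
  have hlt : P.card * (k - 1) < F.card := by rw [hPc, mul_comm]; exact hcon
  obtain ⟨Z, hZ, hcard⟩ := Finset.exists_lt_card_fiber_of_mul_lt_card_of_maps_to hmaps hlt
  set F' := F.filter (fun I => cols s S (I, J) = Z) with hF'
  have hF'c : k ≤ F'.card := by omega
  have hZc : k ≤ Z.card := by
    have hne : F'.Nonempty := by
      rw [← Finset.card_pos]; omega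
    obtain ⟨I, hI⟩ := hne
    rw [hF', Finset.mem_filter, hF, Finset.mem_filter] at hI
    rw [← hI.2]; exact hI.1.2
  obtain ⟨A, hAs, hAc⟩ := Finset.exists_subset_card_eq hF'c
  obtain ⟨B, hBs, hBc⟩ := Finset.exists_subset_card_eq hZc
  let f := A.orderEmbOfFin hAc
  let g := B.orderEmbOfFin hBc
  have h1 : ∀ i, ∃ x, (x, g (π i)) ∈ S ∧ x / s = f i := by
    intro i
    have hfi : f i ∈ F' := hAs (Finset.orderEmbOfFin_mem A hAc i)
    have hgi : g (π i) ∈ Z := hBs (Finset.orderEmbOfFin_mem B hBc (π i))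
    rw [hF', Finset.mem_filter] at hfi
    rw [← hfi.2, cols, Finset.mem_image] at hgi
    obtain ⟨p, hp, he⟩ := hgi
    rw [mem_block] at hp
    refine ⟨p.1, ?_, hp.2.1⟩
    rw [← he]; exact hp.1
  choose x hx hxs using h1
  apply hS
  refine ⟨x, g, ?_, g.strictMono, hx⟩
  intro i j hij
  have := f.strictMono hij
  rw [← hxs i, ← hxs j] at this
  exact lt_of_not_ge fun h => absurd (Nat.div_le_div_right h) (not_le.2 this)

/-- few tall blocks in each block row -/
lemma tall_bound (hs : 0 < s) (hk : 0 < k) (hS : ¬ Contains π S) (m I : ℕ) :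
    ((range m).filter (fun J => k ≤ (rows s S (I, J)).card)).card ≤ (k - 1) * 2 ^ s := by
  by_contra hcon
  push Not at hcon
  set F := (range m).filter (fun J => k ≤ (rows s S (I, J)).card) with hF
  set P := (Ico (I * s) (I * s + s)).powerset with hP
  have hPc : P.card = 2 ^ s := by simp [hP]
  have hmaps : ∀ J ∈ F, rows s S (I, J) ∈ P := by
    intro J _
    rw [hP, Finset.mem_powerset]
    exact rows_subset hs (I, J)
  have hlt : P.card * (k - 1) < F.card := by rw [hPc, mul_comm]; exact hcon
  obtain ⟨Z, hZ, hcard⟩ := Finset.exists_lt_card_fiber_of_mul_lt_card_of_maps_to hmaps hlt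
  set F' := F.filter (fun J => rows s S (I, J) = Z) with hF'
  have hF'c : k ≤ F'.card := by omega
  have hZc : k ≤ Z.card := by
    have hne : F'.Nonempty := by
      rw [← Finset.card_pos]; omega
    obtain ⟨J, hJ⟩ := hne
    rw [hF', Finset.mem_filter, hF, Finset.mem_filter] at hJ
    rw [← hJ.2]; exact hJ.1.2
  obtain ⟨A, hAs, hAc⟩ := Finset.exists_subset_card_eq hF'c
  obtain ⟨B, hBs, hBc⟩ := Finset.exists_subset_card_eq hZc
  let g := A.orderEmbOfFin hAc
  let f := B.orderEmbOfFin hBc
  have h1 : ∀ i, ∃ y, (f i, y) ∈ S ∧ y / s = g (π i) := by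
    intro i
    have hgi : g (π i) ∈ F' := hAs (Finset.orderEmbOfFin_mem A hAc (π i))
    have hfi : f i ∈ Z := hBs (Finset.orderEmbOfFin_mem B hBc i)
    rw [hF', Finset.mem_filter] at hgi
    rw [← hgi.2, rows, Finset.mem_image] at hfi
    obtain ⟨p, hp, he⟩ := hfi
    rw [mem_block] at hp
    refine ⟨p.2, ?_, hp.2.2⟩
    rw [← he]; exact hp.1
  choose y hy hys using h1
  apply hS
  refine ⟨f, fun j => y (π.symm j), f.strictMono, ?_, ?_⟩
  · intro i j hij
    have := g.strictMono hij
    have e1 := hys (π.symm i)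
    have e2 := hys (π.symm j)
    rw [Equiv.apply_symm_apply] at e1 e2
    rw [← e1, ← e2] at this
    exact lt_of_not_ge fun h => absurd (Nat.div_le_div_right h) (not_le.2 this)
  · intro i
    simp only [Equiv.symm_apply_apply]
    exact hy i

/-- sum over all blocks of a box -/
lemma card_filter_box_le (m c : ℕ) (P : ℕ × ℕ → Prop) [DecidablePred P]
    (h : ∀ J, ((range m).filter (fun I => P (I, J))).card ≤ c) :
    ((range m ×ˢ range m).filter P).card ≤ m * c := by
  have h1 : ((range m ×ˢ range m).filter P).card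
      = ∑ J ∈ range m, (((range m ×ˢ range m).filter P).filter (fun p => p.2 = J)).card := by
    apply Finset.card_eq_sum_card_fiberwise
    intro p hp
    simp only [Finset.coe_filter, Finset.mem_product, Finset.mem_range, Set.mem_ofPred_eq] at hp
    simpa using hp.1.2
  rw [h1]
  calc _ ≤ ∑ J ∈ range m, c := by
        apply Finset.sum_le_sum
        intro J _
        refine le_trans ?_ (h J)
        apply Finset.card_le_card_of_injOn Prod.fst
        · intro p hp
          simp only [Finset.coe_filter, Finset.mem_filter, Finset.mem_product, Finset.mem_range,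
            Set.mem_ofPred_eq] at hp ⊢
          obtain ⟨⟨⟨h1, -⟩, h3⟩, rfl⟩ := hp
          exact ⟨h1, h3⟩
        · intro p hp q hq he
          simp only [Finset.coe_filter, Finset.mem_filter, Set.mem_ofPred_eq] at hp hq
          exact Prod.ext he (hp.2.trans hq.2.symm)
    _ = m * c := by simp

lemma card_filter_box_le' (m c : ℕ) (P : ℕ × ℕ → Prop) [DecidablePred P]
    (h : ∀ I, ((range m).filter (fun J => P (I, J))).card ≤ c) :
    ((range m ×ˢ range m).filter P).card ≤ m * c := by
  have h1 : ((range m ×ˢ range m).filter P).card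
      = ∑ I ∈ range m, (((range m ×ˢ range m).filter P).filter (fun p => p.1 = I)).card := by
    apply Finset.card_eq_sum_card_fiberwise
    intro p hp
    simp only [Finset.coe_filter, Finset.mem_product, Finset.mem_range, Set.mem_ofPred_eq] at hp
    simpa using hp.1.1
  rw [h1]
  calc _ ≤ ∑ I ∈ range m, c := by
        apply Finset.sum_le_sum
        intro I _
        refine le_trans ?_ (h I)
        apply Finset.card_le_card_of_injOn Prod.snd
        · intro p hp
          simp only [Finset.coe_filter, Finset.mem_filter, Finset.mem_product, Finset.mem_range,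
            Set.mem_ofPred_eq] at hp ⊢
          obtain ⟨⟨⟨-, h1⟩, h3⟩, rfl⟩ := hp
          exact ⟨h1, h3⟩
        · intro p hp q hq he
          simp only [Finset.coe_filter, Finset.mem_filter, Set.mem_ofPred_eq] at hp hq
          exact Prod.ext (hp.2.trans hq.2.symm) he
    _ = m * c := by simp

lemma contract_box {m : ℕ} (hb : S ⊆ range (s * m) ×ˢ range (s * m)) :
    contract s S ⊆ range m ×ˢ range m := by
  intro b hb'
  obtain ⟨p, hp, rfl⟩ := Finset.mem_image.1 hb'
  have := hb hp
  simp only [Finset.mem_product, Finset.mem_range] at this ⊢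
  exact ⟨Nat.div_lt_of_lt_mul this.1, Nat.div_lt_of_lt_mul this.2⟩

/-- one step of the recursion -/
lemma card_le_step (hs : 0 < s) (hk : 0 < k) (hS : ¬ Contains π S) {m : ℕ}
    (hb : S ⊆ range (s * m) ×ˢ range (s * m)) :
    S.card ≤ 2 * (m * ((k - 1) * 2 ^ s) * s ^ 2) + (k - 1) ^ 2 * (contract s S).card := by
  have hbox := contract_box hb
  have h1 : S.card = ∑ b ∈ contract s S, (block s S b).card := by
    rw [contract, Finset.card_eq_sum_card_image (fun p : ℕ × ℕ => (p.1 / s, p.2 / s)) S]
    rfl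
  have h2 : ∀ b ∈ contract s S, (block s S b).card ≤
      (if k ≤ (cols s S b).card then s ^ 2 else 0) + (if k ≤ (rows s S b).card then s ^ 2 else 0)
        + (k - 1) ^ 2 := by
    intro b _
    have hc := card_block_le (s := s) (S := S) b
    have hr1 := card_rows_le (S := S) hs b
    have hc1 := card_cols_le (S := S) hs b
    by_cases hw : k ≤ (cols s S b).card
    · rw [if_pos hw]
      have : (block s S b).card ≤ s ^ 2 := by
        rw [sq]; exact hc.trans (Nat.mul_le_mul hr1 hc1)
      omega
    · by_cases ht : k ≤ (rows s S b).card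
      · rw [if_pos ht]
        have : (block s S b).card ≤ s ^ 2 := by
          rw [sq]; exact hc.trans (Nat.mul_le_mul hr1 hc1)
        omega
      · rw [if_neg hw, if_neg ht]
        have : (block s S b).card ≤ (k - 1) ^ 2 := by
          rw [sq]; exact hc.trans (Nat.mul_le_mul (by omega) (by omega))
        omega
  have h3 : ∑ b ∈ contract s S, (if k ≤ (cols s S b).card then s ^ 2 else 0)
      ≤ m * ((k - 1) * 2 ^ s) * s ^ 2 := by
    rw [← Finset.sum_filter, Finset.sum_const, smul_eq_mul]
    apply Nat.mul_le_mul_right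
    refine le_trans (Finset.card_le_card (Finset.filter_subset_filter _ hbox)) ?_
    exact card_filter_box_le m _ _ (fun J => wide_bound hs hk hS m J)
  have h4 : ∑ b ∈ contract s S, (if k ≤ (rows s S b).card then s ^ 2 else 0)
      ≤ m * ((k - 1) * 2 ^ s) * s ^ 2 := by
    rw [← Finset.sum_filter, Finset.sum_const, smul_eq_mul]
    apply Nat.mul_le_mul_right
    refine le_trans (Finset.card_le_card (Finset.filter_subset_filter _ hbox)) ?_
    exact card_filter_box_le' m _ _ (fun I => tall_bound hs hk hS m I)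
  calc S.card = ∑ b ∈ contract s S, (block s S b).card := h1
    _ ≤ _ := Finset.sum_le_sum h2
    _ = (∑ b ∈ contract s S, (if k ≤ (cols s S b).card then s ^ 2 else 0))
        + (∑ b ∈ contract s S, (if k ≤ (rows s S b).card then s ^ 2 else 0))
        + (k - 1) ^ 2 * (contract s S).card := by
          rw [Finset.sum_add_distrib, Finset.sum_add_distrib, Finset.sum_const, smul_eq_mul]
          ring
    _ ≤ _ := by omega

/-- The linear bound at powers of `s`. -/
lemma card_le_pow (hk : 0 < k) (hs : (k - 1) ^ 2 + 1 ≤ s) (t : ℕ) :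
    ∀ S : Finset (ℕ × ℕ), ¬ Contains π S → S ⊆ range (s ^ t) ×ˢ range (s ^ t) →
      S.card ≤ (2 * (k * 2 ^ s * s ^ 2) + 1) * s ^ t := by
  have hs0 : 0 < s := by omega
  induction t with
  | zero =>
    intro S _ hb
    have := Finset.card_le_card hb
    simp only [pow_zero, Finset.card_product, Finset.card_range, mul_one] at this ⊢
    omega
  | succ t ih =>
    intro S hS hb
    have hb' : S ⊆ range (s * s ^ t) ×ˢ range (s * s ^ t) := by
      rw [← pow_succ']; exact hb
    have h1 := card_le_step hs0 hk hS hb'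
    have h2 := ih (contract s S) (fun h => hS (contains_of_contract h)) (contract_box hb')
    set c := 2 * (k * 2 ^ s * s ^ 2) + 1 with hc
    have h3 : (k - 1) ^ 2 * (contract s S).card ≤ (k - 1) ^ 2 * (c * s ^ t) :=
      Nat.mul_le_mul_left _ h2
    have h4 : 2 * (s ^ t * ((k - 1) * 2 ^ s) * s ^ 2) ≤ c * s ^ t := by
      rw [hc]
      have : (k - 1) ≤ k := Nat.sub_le _ _
      calc 2 * (s ^ t * ((k - 1) * 2 ^ s) * s ^ 2) ≤ 2 * (s ^ t * (k * 2 ^ s) * s ^ 2) := by gcongr
        _ = 2 * (k * 2 ^ s * s ^ 2) * s ^ t := by ring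
        _ ≤ _ := Nat.mul_le_mul_right _ (Nat.le_succ _)
    calc S.card ≤ c * s ^ t + (k - 1) ^ 2 * (c * s ^ t) := by omega
      _ = ((k - 1) ^ 2 + 1) * (c * s ^ t) := by ring
      _ ≤ s * (c * s ^ t) := Nat.mul_le_mul_right _ hs
      _ = c * s ^ (t + 1) := by rw [pow_succ]; ring

/-- The region covered by a set of blocks. -/
def region (s : ℕ) (S' : Finset (ℕ × ℕ)) : Finset (ℕ × ℕ) :=
  S'.biUnion (fun b => Ico (b.1 * s) (b.1 * s + s) ×ˢ Ico (b.2 * s) (b.2 * s + s))

lemma card_region_le (S' : Finset (ℕ × ℕ)) : (region s S').card ≤ S'.card * s ^ 2 := by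
  refine le_trans Finset.card_biUnion_le ?_
  simp [sq]

lemma subset_region (hs : 0 < s) : S ⊆ region s (contract s S) := by
  intro p hp
  rw [region, Finset.mem_biUnion]
  refine ⟨(p.1 / s, p.2 / s), Finset.mem_image_of_mem _ hp, ?_⟩
  simp only [Finset.mem_product, Finset.mem_Ico]
  exact ⟨⟨Nat.div_mul_le_self _ _, Nat.lt_div_mul_add hs⟩,
    ⟨Nat.div_mul_le_self _ _, Nat.lt_div_mul_add hs⟩⟩

open Classical in
/-- The sets in the `n × n` box that avoid `π`. -/
noncomputable def avoiders (π : Equiv.Perm (Fin k)) (n : ℕ) : Finset (Finset (ℕ × ℕ)) :=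
  ((range n ×ˢ range n).powerset).filter (fun S => ¬ Contains π S)

lemma mem_avoiders {n : ℕ} :
    S ∈ avoiders π n ↔ S ⊆ range n ×ˢ range n ∧ ¬ Contains π S := by
  simp [avoiders]

lemma avoiders_subset {n : ℕ} : avoiders π n ⊆ (range n ×ˢ range n).powerset :=
  fun _ hS => Finset.mem_powerset.2 (mem_avoiders.1 hS).1

lemma avoiders_mono {n m : ℕ} (h : n ≤ m) : avoiders π n ⊆ avoiders π m := by
  intro S hS
  rw [mem_avoiders] at hS ⊢
  refine ⟨hS.1.trans ?_, hS.2⟩
  exact Finset.product_subset_product (Finset.range_mono h) (Finset.range_mono h)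

lemma card_avoiders_step (hk : 0 < k) (hs : (k - 1) ^ 2 + 1 ≤ s) (t : ℕ) :
    (avoiders π (s ^ (t + 1))).card ≤
      2 ^ ((2 * (k * 2 ^ s * s ^ 2) + 1) * s ^ t * s ^ 2) * (avoiders π (s ^ t)).card := by
  have hs0 : 0 < s := by omega
  have hmaps : ∀ S ∈ avoiders π (s ^ (t + 1)), contract s S ∈ avoiders π (s ^ t) := by
    intro S hS
    rw [mem_avoiders] at hS ⊢
    refine ⟨contract_box (by rw [← pow_succ']; exact hS.1), fun h => hS.2
      (contains_of_contract h)⟩
  refine Finset.card_le_mul_card_image_of_maps_to hmaps _ ?_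
  intro S' hS'
  have h1 : (avoiders π (s ^ (t + 1))).filter (fun S => contract s S = S')
      ⊆ (region s S').powerset := by
    intro S hS
    rw [Finset.mem_filter] at hS
    rw [Finset.mem_powerset, ← hS.2]
    exact subset_region hs0
  refine le_trans (Finset.card_le_card h1) ?_
  rw [Finset.card_powerset]
  apply Nat.pow_le_pow_right (by norm_num)
  refine le_trans (card_region_le S') ?_
  apply Nat.mul_le_mul_right
  rw [mem_avoiders] at hS'
  exact card_le_pow hk hs t S' hS'.2 hS'.1

lemma card_avoiders_pow (hk : 0 < k) (hs : (k - 1) ^ 2 + 2 ≤ s) (t : ℕ) :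
    (avoiders π (s ^ t)).card ≤ 2 ^ ((2 * (k * 2 ^ s * s ^ 2) + 1) * s ^ 2 * s ^ t) := by
  set c := 2 * (k * 2 ^ s * s ^ 2) + 1 with hc
  have hs2 : 2 ≤ s := by omega
  induction t with
  | zero =>
    have h1 : (avoiders π (s ^ 0)).card ≤ 2 := by
      refine le_trans (Finset.card_le_card avoiders_subset) ?_
      simp
    refine h1.trans ?_
    calc 2 = 2 ^ 1 := by norm_num
      _ ≤ _ := by
        apply Nat.pow_le_pow_right (by norm_num)
        have : 1 ≤ s ^ 2 := Nat.one_le_pow _ _ (by omega)
        have h2 : 1 ≤ c := by omega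
        calc 1 = 1 * 1 * 1 := by norm_num
          _ ≤ c * s ^ 2 * s ^ 0 := by gcongr; simp
  | succ t ih =>
    refine le_trans (card_avoiders_step hk (by omega) t) ?_
    rw [← hc]
    calc 2 ^ (c * s ^ t * s ^ 2) * (avoiders π (s ^ t)).card
        ≤ 2 ^ (c * s ^ t * s ^ 2) * 2 ^ (c * s ^ 2 * s ^ t) := Nat.mul_le_mul_left _ ih
      _ = 2 ^ (2 * (c * s ^ 2 * s ^ t)) := by rw [← pow_add]; congr 1; ring
      _ ≤ 2 ^ (c * s ^ 2 * s ^ (t + 1)) := by
        apply Nat.pow_le_pow_right (by norm_num)
        calc 2 * (c * s ^ 2 * s ^ t) ≤ s * (c * s ^ 2 * s ^ t) := Nat.mul_le_mul_right _ hs2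
          _ = c * s ^ 2 * s ^ (t + 1) := by rw [pow_succ]; ring

/-- **Klazar, Marcus-Tardos**: at most exponentially many subsets of the `n × n` box avoid a
given permutation. -/
theorem card_avoiders_le (π : Equiv.Perm (Fin k)) : ∃ C : ℕ, 1 ≤ C ∧ ∀ n,
    (avoiders π n).card ≤ C ^ n := by
  rcases Nat.eq_zero_or_pos k with hk | hk
  · subst hk
    refine ⟨1, le_refl _, fun n => ?_⟩
    have : avoiders π n = ∅ := by
      rw [Finset.eq_empty_iff_forall_notMem]
      intro S hS
      rw [mem_avoiders] at hS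
      exact hS.2 ⟨fun i => i.elim0, fun i => i.elim0, fun i => i.elim0, fun i => i.elim0,
        fun i => i.elim0⟩
    rw [this]; simp
  · set s := (k - 1) ^ 2 + 2 with hs
    set D := (2 * (k * 2 ^ s * s ^ 2) + 1) * s ^ 2 with hD
    refine ⟨2 ^ (D * s), Nat.one_le_two_pow, fun n => ?_⟩
    rcases Nat.eq_zero_or_pos n with hn | hn
    · subst hn
      refine le_trans (Finset.card_le_card avoiders_subset) ?_
      simp
    · have hs2 : 1 < s := by omega
      obtain ⟨t, ht1, ht2⟩ : ∃ t, n ≤ s ^ t ∧ s ^ t ≤ s * n := by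
        refine ⟨Nat.clog s n, Nat.le_pow_clog hs2 n, ?_⟩
        rcases Nat.lt_or_ge 1 n with h1 | h1
        · have := Nat.pow_pred_clog_lt_self hs2 h1
          have hpos : 0 < Nat.clog s n := Nat.clog_pos hs2 h1
          calc s ^ Nat.clog s n = s * s ^ (Nat.clog s n - 1) := by
                rw [← pow_succ']; congr 1; omega
            _ ≤ s * n := Nat.mul_le_mul_left _ this.le
        · have : n = 1 := by omega
          subst this
          simp; omega
      refine le_trans (Finset.card_le_card (avoiders_mono ht1)) ?_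
      refine le_trans (card_avoiders_pow hk (le_refl _) t) ?_
      rw [← pow_mul]
      apply Nat.pow_le_pow_right (by norm_num)
      calc D * s ^ t ≤ D * (s * n) := Nat.mul_le_mul_left _ ht2
        _ = D * s * n := by ring

end Pool.Agent.Helper98.MT
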