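import Pool.Agent.Helper98.OrdSets
import Pool.Agent.Helper98.Ramsey
import Pool.Agent.Helper98.MarcusTardos

/-!
# Counting cliques of pairwise non-harmonious patterns
-/

namespace Pool.Agent.Helper98.OM

open Finset

/-- The grid permutation. -/
def gridPerm (N : ℕ) : Equiv.Perm (Fin (N * N)) :=
  finProdFinEquiv.symm.trans ((Equiv.prodComm _ _).trans finProdFinEquiv)

lemma gridPerm_apply (N : ℕ) (a b : Fin N) :
    gridPerm N (finProdFinEquiv (a, b)) = finProdFinEquiv (b, a) := by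
  simp [gridPerm]

lemma finProdFinEquiv_lt {N : ℕ} {a a' : Fin N} (h : a < a') (b b' : Fin N) :
    finProdFinEquiv (a, b) < finProdFinEquiv (a', b') := by
  rw [Fin.lt_def, finProdFinEquiv_apply_val, finProdFinEquiv_apply_val]
  simp only
  have h1 : (a : ℕ) + 1 ≤ a' := h
  have h2 := b.2
  have h3 : N * ((a : ℕ) + 1) ≤ N * a' := Nat.mul_le_mul_left _ h1
  rw [Nat.mul_add, Nat.mul_one] at h3
  omega

/-- Letters of a word as a function. -/
def tv (n : ℕ) (w : List Bool) : Fin n → Bool := fun i => w.getD i false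

lemma tv_inj {n : ℕ} {w w' : List Bool} (h1 : w.length = n) (h2 : w'.length = n)
    (h : tv n w = tv n w') : w = w' := by
  apply List.ext_getElem (by omega)
  intro i hi hi'
  have := congrFun h ⟨i, by omega⟩
  simp only [tv] at this
  rwa [List.getD_eq_getElem _ _ hi, List.getD_eq_getElem _ _ hi'] at this

theorem clique_avoids {r : ℕ} {Pt : Set (List Bool)}
    (hPt : ∀ X ∈ Pt, ∀ Y ∈ Pt, X ≠ Y → ¬ Harmonious X Y) :
    ∃ N : ℕ, ∀ C : Finset (Finset ℕ), (∀ e ∈ C, e.card = r) →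
      (∀ e ∈ C, ∀ f ∈ C, e ≠ f → Disjoint e f) → IsClique Pt C → ∀ j < r,
      ¬ MT.Contains (gridPerm N) (C.image (fun e => (nth e 0, nth e j))) := by
  obtain ⟨N, hN⟩ := Ramsey.product_ramsey ((Fin (2 * r) → Bool) × (Fin (2 * r) → Bool)) 3
  refine ⟨N, fun C hr hd hC j hj hcon => ?_⟩
  obtain ⟨f, g, hf, hg, hfg⟩ := hcon
  have hE : ∀ a b : Fin N, ∃ e ∈ C, nth e 0 = f (finProdFinEquiv (a, b)) ∧
      nth e j = g (finProdFinEquiv (b, a)) := by
    intro a b
    have := hfg (finProdFinEquiv (a, b))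
    rw [gridPerm_apply, Finset.mem_image] at this
    obtain ⟨e, he, h⟩ := this
    exact ⟨e, he, (Prod.mk.inj h).1, (Prod.mk.inj h).2⟩
  choose E hEC hE0 hEj using hE
  have hlt0 : ∀ a a' b b', a < a' → nth (E a b) 0 < nth (E a' b') 0 := by
    intro a a' b b' h
    rw [hE0, hE0]; exact hf (finProdFinEquiv_lt h _ _)
  have hltj : ∀ a a' b b', b < b' → nth (E a b) j < nth (E a' b') j := by
    intro a a' b b' h
    rw [hEj, hEj]; exact hg (finProdFinEquiv_lt h _ _)
  have hdis : ∀ a a' b b', a < a' → Disjoint (E a b) (E a' b') := by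
    intro a a' b b' h
    apply hd _ (hEC _ _) _ (hEC _ _)
    intro he
    have := hlt0 a a' b b' h
    rw [he] at this
    exact lt_irrefl _ this
  have hlen : ∀ a a' b b', a < a' → (word (E a b) (E a' b')).length = 2 * r := by
    intro a a' b b' h
    rw [length_word (hdis a a' b b' h), hr _ (hEC _ _), hr _ (hEC _ _)]; ring
  obtain ⟨u, v, hu, hv, huN, hvN, q, hq⟩ := hN (fun a a' b b' =>
    if h : (a < N ∧ a' < N) ∧ (b < N ∧ b' < N) then
      (tv (2 * r) (word (E ⟨a, h.1.1⟩ ⟨b', h.2.2⟩) (E ⟨a', h.1.2⟩ ⟨b, h.2.1⟩)),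
        tv (2 * r) (word (E ⟨a, h.1.1⟩ ⟨b, h.2.1⟩) (E ⟨a', h.1.2⟩ ⟨b', h.2.2⟩)))
    else (fun _ => false, fun _ => false))
  set e : Fin 3 → Fin 3 → Finset ℕ := fun i k => E ⟨u i, huN i⟩ ⟨v k, hvN k⟩ with he
  have hq1 : ∀ i i' k k', i < i' → k < k' →
      (tv (2 * r) (word (e i k') (e i' k)), tv (2 * r) (word (e i k) (e i' k'))) = q := by
    intro i i' k k' hi hk
    have := hq i k i' k' hi hk
    rw [dif_pos ⟨⟨huN i, huN i'⟩, ⟨hvN k, hvN k'⟩⟩] at this
    exact this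
  have hu' : ∀ i i', i < i' → (⟨u i, huN i⟩ : Fin N) < ⟨u i', huN i'⟩ := fun i i' h => hu h
  have hv' : ∀ i i', i < i' → (⟨v i, hvN i⟩ : Fin N) < ⟨v i', hvN i'⟩ := fun i i' h => hv h
  set X := word (e 0 1) (e 1 0) with hX
  set Y := word (e 0 0) (e 1 1) with hY
  have h01 : (0 : Fin 3) < 1 := by decide
  have h02 : (0 : Fin 3) < 2 := by decide
  have h12 : (1 : Fin 3) < 2 := by decide
  have hXe : ∀ i i' k k', i < i' → k < k' → word (e i k') (e i' k) = X := by
    intro i i' k k' hi hk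
    apply tv_inj (hlen _ _ _ _ (hu' _ _ hi)) (hlen _ _ _ _ (hu' _ _ h01))
    have h1 := hq1 i i' k k' hi hk
    have h2 := hq1 0 1 0 1 h01 h01
    rw [← h2] at h1
    exact (Prod.mk.inj h1).1
  have hYe : ∀ i i' k k', i < i' → k < k' → word (e i k) (e i' k') = Y := by
    intro i i' k k' hi hk
    apply tv_inj (hlen _ _ _ _ (hu' _ _ hi)) (hlen _ _ _ _ (hu' _ _ h01))
    have h1 := hq1 i i' k k' hi hk
    have h2 := hq1 0 1 0 1 h01 h01
    rw [← h2] at h1
    exact (Prod.mk.inj h1).2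
  have hcard : ∀ i k, (e i k).card = r := fun i k => hr _ (hEC _ _)
  have hdis' : ∀ i i' k k', i < i' → Disjoint (e i k) (e i' k') :=
    fun i i' k k' hi => hdis _ _ _ _ (hu' _ _ hi)
  have hT : ∀ k0 k1 k2, Tri r (word (e 0 k0) (e 1 k1)) (word (e 0 k0) (e 2 k2))
      (word (e 1 k1) (e 2 k2)) := fun k0 k1 k2 =>
    tri_word (hcard _ _) (hcard _ _) (hcard _ _) (hdis' _ _ _ _ h01) (hdis' _ _ _ _ h02)
      (hdis' _ _ _ _ h12)
  have hXXX : Tri r X X X := by
    have := hT 2 1 0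
    rwa [hXe 0 1 1 2 h01 h12, hXe 0 2 0 2 h02 h02, hXe 1 2 0 1 h12 h01] at this
  have hYYY : Tri r Y Y Y := by
    have := hT 0 1 2
    rwa [hYe 0 1 0 1 h01 h01, hYe 0 2 0 2 h02 h02, hYe 1 2 1 2 h12 h12] at this
  have hYXX : Tri r Y X X := by
    have := hT 1 2 0
    rwa [hYe 0 1 1 2 h01 h12, hXe 0 2 0 1 h02 h01, hXe 1 2 0 2 h12 h02] at this
  have hXXY : Tri r X X Y := by
    have := hT 2 0 1
    rwa [hXe 0 1 0 2 h01 h02, hXe 0 2 1 2 h02 h12, hYe 1 2 0 1 h12 h01] at this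
  have hXYY : Tri r X Y Y := by
    have := hT 1 0 2
    rwa [hXe 0 1 0 1 h01 h01, hYe 0 2 1 2 h02 h12, hYe 1 2 0 2 h12 h02] at this
  have hYYX : Tri r Y Y X := by
    have := hT 0 2 1
    rwa [hYe 0 1 0 2 h01 h02, hYe 0 2 0 1 h02 h01, hXe 1 2 1 2 h12 h12] at this
  have cX1 : X.count true = r := by rw [hX, count_true_word, hcard]
  have cX2 : X.count false = r := by rw [hX, count_false_word (hdis' _ _ _ _ h01), hcard]
  have cY1 : Y.count true = r := by rw [hY, count_true_word, hcard]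
  have cY2 : Y.count false = r := by rw [hY, count_false_word (hdis' _ _ _ _ h01), hcard]
  have hharm := pair_lemma cX1 cX2 cY1 cY2 hXXX hYYY hYXX hXXY hXYY hYYX
  have hpos : ∀ i k, 0 < (e i k).card := fun i k => by rw [hcard]; omega
  have hmem : ∀ i i' k k', i < i' → word (e i k) (e i' k') ∈ Pt := by
    intro i i' k k' hi
    have h1 := hlt0 _ _ ⟨v k, hvN k⟩ ⟨v k', hvN k'⟩ (hu' _ _ hi)
    rw [← pattern_eq_word (hpos _ _) h1]
    apply hC _ (hEC _ _) _ (hEC _ _)
    intro h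
    rw [h] at h1
    exact lt_irrefl _ h1
  refine hPt X (hmem _ _ _ _ h01) Y (hmem _ _ _ _ h01) ?_ hharm
  intro hXY
  have b1 : before Y j j := by
    rw [hY, before_word (hdis' _ _ _ _ h01) (by rw [hcard]; exact hj) (by rw [hcard]; exact hj)]
    exact hltj _ _ _ _ (hv' _ _ h01)
  have b2 : ¬ before X j j := by
    rw [hX, before_word (hdis' _ _ _ _ h01) (by rw [hcard]; exact hj) (by rw [hcard]; exact hj)]
    exact not_lt.2 (hltj _ _ _ _ (hv' _ _ h01)).le
  rw [hXY] at b2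
  exact b2 b1

open Classical in
/-- The cliques consisting of pairwise disjoint `r`-subsets of `{0, ..., m - 1}`. -/
noncomputable def cliques (r m : ℕ) (Pt : Set (List Bool)) : Finset (Finset (Finset ℕ)) :=
  (powersetCard r (range m)).powerset.filter
    (fun C => (∀ e ∈ C, ∀ f ∈ C, e ≠ f → Disjoint e f) ∧ IsClique Pt C)

lemma mem_cliques {r m : ℕ} {Pt : Set (List Bool)} {C : Finset (Finset ℕ)} :
    C ∈ cliques r m Pt ↔ (∀ e ∈ C, e ⊆ range m ∧ e.card = r) ∧
      (∀ e ∈ C, ∀ f ∈ C, e ≠ f → Disjoint e f) ∧ IsClique Pt C := by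
  simp only [cliques, Finset.mem_filter, Finset.mem_powerset]
  constructor
  · rintro ⟨h1, h2⟩
    exact ⟨fun e he => Finset.mem_powersetCard.1 (h1 he), h2⟩
  · rintro ⟨h1, h2⟩
    exact ⟨fun e he => Finset.mem_powersetCard.2 (h1 e he), h2⟩

lemma subset_of_images {r : ℕ} (hr : 0 < r) {C C' : Finset (Finset ℕ)}
    (h1 : ∀ e ∈ C, e.card = r) (h2 : ∀ e ∈ C', e.card = r)
    (hd : ∀ e ∈ C', ∀ f ∈ C', e ≠ f → Disjoint e f)
    (h : ∀ j < r, C.image (fun e => (nth e 0, nth e j)) ⊆ C'.image (fun e => (nth e 0, nth e j))) :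
    C ⊆ C' := by
  intro e he
  have key : ∀ j < r, ∃ e' ∈ C', nth e' 0 = nth e 0 ∧ nth e' j = nth e j := by
    intro j hj
    obtain ⟨e', he', h'⟩ := Finset.mem_image.1 (h j hj (Finset.mem_image_of_mem _ he))
    exact ⟨e', he', (Prod.mk.inj h').1, (Prod.mk.inj h').2⟩
  obtain ⟨e', he', h0, -⟩ := key 0 hr
  have hall : ∀ j < r, nth e' j = nth e j := by
    intro j hj
    obtain ⟨e'', he'', h0', hj'⟩ := key j hj
    have : e'' = e' := by
      by_contra hne
      have hdis := hd _ he'' _ he' hne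
      have m1 : nth e'' 0 ∈ e'' := nth_mem (by rw [h2 _ he'']; exact hr)
      have m2 : nth e' 0 ∈ e' := nth_mem (by rw [h2 _ he']; exact hr)
      rw [h0'] at m1
      rw [h0] at m2
      exact Finset.disjoint_left.1 hdis m1 m2
    rw [← this]; exact hj'
  have hsub : e ⊆ e' := by
    intro x hx
    obtain ⟨i, hi, rfl⟩ := exists_nth hx
    rw [h1 _ he] at hi
    rw [← hall i hi]
    exact nth_mem (by rw [h2 _ he']; exact hi)
  have : e = e' := Finset.eq_of_subset_of_card_le hsub (by rw [h1 _ he, h2 _ he'])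
  rw [this]; exact he'

theorem card_cliques_le {r : ℕ} (hr : 0 < r) {Pt : Set (List Bool)}
    (hPt : ∀ X ∈ Pt, ∀ Y ∈ Pt, X ≠ Y → ¬ Harmonious X Y) :
    ∃ A : ℕ, 1 ≤ A ∧ ∀ m, (cliques r m Pt).card ≤ A ^ m := by
  obtain ⟨N, hN⟩ := clique_avoids (r := r) hPt
  obtain ⟨A, hA, hA'⟩ := MT.card_avoiders_le (gridPerm N)
  refine ⟨A ^ r, Nat.one_le_pow _ _ hA, fun m => ?_⟩
  have h1 : (cliques r m Pt).card ≤
      (Fintype.piFinset (fun _ : Fin r => MT.avoiders (gridPerm N) m)).card := by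
    apply Finset.card_le_card_of_injOn
      (fun C => fun j : Fin r => C.image (fun e => (nth e 0, nth e j)))
    · intro C hC
      rw [Finset.mem_coe, mem_cliques] at hC
      rw [Finset.mem_coe, Fintype.mem_piFinset]
      intro j
      rw [MT.mem_avoiders]
      refine ⟨?_, hN C (fun e he => (hC.1 e he).2) hC.2.1 hC.2.2 j j.2⟩
      intro p hp
      obtain ⟨e, he, rfl⟩ := Finset.mem_image.1 hp
      obtain ⟨hs, hc⟩ := hC.1 e he
      rw [Finset.mem_product]
      exact ⟨hs (nth_mem (by omega)), hs (nth_mem (by rw [hc]; exact j.2))⟩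
    · intro C hC C' hC' h
      rw [Finset.mem_coe, mem_cliques] at hC hC'
      apply Finset.Subset.antisymm
      · exact subset_of_images hr (fun e he => (hC.1 e he).2) (fun e he => (hC'.1 e he).2)
          hC'.2.1 (fun j hj => (congrFun h ⟨j, hj⟩).subset)
      · exact subset_of_images hr (fun e he => (hC'.1 e he).2) (fun e he => (hC.1 e he).2)
          hC.2.1 (fun j hj => (congrFun h ⟨j, hj⟩).symm.subset)
  refine h1.trans ?_
  rw [Fintype.card_piFinset]
  simp only [Finset.prod_const, Finset.card_univ, Fintype.card_fin]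
  calc (MT.avoiders (gridPerm N) m).card ^ r ≤ (A ^ m) ^ r := Nat.pow_le_pow_left (hA' m) r
    _ = (A ^ r) ^ m := by rw [← pow_mul, ← pow_mul, mul_comm]

end Pool.Agent.Helper98.OM
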