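import Mathlib

/-!
# Ordered hypergraph matchings, patterns and cliques: the definitions

Words over `{A, B}` are lists of Booleans, with `A = true` and `B = false`.
The vertex set `[rn]` is `{0, 1, ..., rn - 1}`.
-/

namespace Pool.Agent.Helper98.OM

open Finset

/-- The word of `e, f`: list the elements of `e ∪ f` in increasing order, writing `A` (`true`) for
elements of `e` and `B` (`false`) for the others. -/
noncomputable def word (e f : Finset ℕ) : List Bool :=
  ((e ∪ f).sort (· ≤ ·)).map (fun x => decide (x ∈ e))

open Classical in
/-- The pattern formed by two disjoint sets: the word in which `A` (`true`) marks the elements of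
the set that contains the smallest element of `e ∪ f`. -/
noncomputable def pattern (e f : Finset ℕ) : List Bool :=
  if ∃ x ∈ e, ∀ y ∈ f, x < y then word e f else word f e

/-- `r`-patterns: words with `r` letters `A` and `r` letters `B`, starting with `A`. -/
def IsRPattern (r : ℕ) (P : List Bool) : Prop :=
  P.count true = r ∧ P.count false = r ∧ P.head? = some true

/-- `SplitsAs P μ`: the word `P` is a concatenation of consecutive blocks `A^t B^t` or `B^t A^t`,
where the numbers `t ≥ 1` are listed by `μ`, i.e. `μ` is the composition of `P`. -/
inductive SplitsAs : List Bool → List ℕ → Prop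
  | nil : SplitsAs [] []
  | cons (c : Bool) (t : ℕ) (w : List Bool) (μ : List ℕ) (ht : 1 ≤ t) (h : SplitsAs w μ) :
      SplitsAs (List.replicate t c ++ List.replicate t (!c) ++ w) (t :: μ)

/-- A pattern is collectable if it splits into blocks `A^t B^t` or `B^t A^t`. -/
def Collectable (P : List Bool) : Prop := ∃ μ, SplitsAs P μ

/-- Two patterns are harmonious if both split into blocks, with the same composition. -/
def Harmonious (P Q : List Bool) : Prop := ∃ μ, SplitsAs P μ ∧ SplitsAs Q μ

/-- Every two members of `C` form a pattern in `Pt`. -/
def IsClique (Pt : Set (List Bool)) (C : Finset (Finset ℕ)) : Prop :=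
  ∀ e ∈ C, ∀ f ∈ C, e ≠ f → pattern e f ∈ Pt

/-- Ordered `r`-matchings of size `n`: partitions of `{0, ..., rn - 1}` into sets of size `r`. -/
abbrev OrdMatching (r n : ℕ) : Type :=
  {M : Finpartition (Finset.range (r * n)) // ∀ e ∈ M.parts, e.card = r}

noncomputable instance (r n : ℕ) : Fintype (OrdMatching r n) := by
  classical
  exact Subtype.fintype _

open Classical in
/-- The largest number of edges of a `Pt`-clique contained in `M`. -/
noncomputable def maxClique (Pt : Set (List Bool)) {r n : ℕ} (M : OrdMatching r n) : ℕ :=
  (M.1.parts.powerset.filter (fun C => IsClique Pt C)).sup Finset.card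

/-- The probability that a uniformly random ordered `r`-matching of size `n` satisfies `Q`. -/
noncomputable def prob (r n : ℕ) (Q : OrdMatching r n → Prop) : ℝ :=
  (Nat.card {M : OrdMatching r n // Q M} : ℝ) / (Nat.card (OrdMatching r n) : ℝ)

end Pool.Agent.Helper98.OM
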