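import Pool.Agent.Helper98.OrdMoments

/-!
# The lower tail (second moment bound)
-/

namespace Pool.Agent.Helper98.OM

open Finset

lemma splits_repr {w : List Bool} {μ : List ℕ} (h : SplitsAs w μ) :
    ∃ (L : ℕ → ℕ) (sg : ℕ → Bool), Monotone L ∧ (∀ i, L i ≤ i) ∧
      (∀ i j, L i = L j → sg i = sg j) ∧
      ∀ i j, i < w.count true → j < w.count true →
        (before w i j ↔ (L i < L j ∨ (L i = L j ∧ sg i = true))) := by
  induction h with
  | nil =>
    exact ⟨id, fun _ => true, monotone_id, fun _ => le_refl _, fun _ _ _ => rfl,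
      fun i j hi => by simp at hi⟩
  | cons c t w μ ht h ih =>
    obtain ⟨L', sg', hL', hLi', hsg', hb'⟩ := ih
    have hcount : (List.replicate t c ++ List.replicate t (!c) ++ w).count true
        = t + w.count true := by
      cases c <;> simp
    refine ⟨fun i => if i < t then 0 else L' (i - t) + 1, fun i => if i < t then c else sg' (i - t),
      ?_, ?_, ?_, ?_⟩
    · intro i j hij
      simp only
      split_ifs with h1 h2 h2
      · exact le_refl _
      · exact Nat.zero_le _
      · omega
      · exact Nat.add_le_add_right (hL' (by omega)) 1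
    · intro i
      simp only
      split_ifs with h1
      · exact Nat.zero_le _
      · have := hLi' (i - t); omega
    · intro i j
      simp only
      split_ifs with h1 h2 h2
      · intro _; rfl
      · intro h; exact h.elim
      · intro h; exact h.elim
      · intro h; exact hsg' _ _ (by omega)
    · intro i j hi hj
      rw [hcount] at hi hj
      simp only
      cases c with
      | true =>
        rw [List.append_assoc, before_replicate_true, Bool.not_true, before_replicate_false]
        by_cases h1 : i < t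
        · by_cases h2 : j < t
          · simp [h1, h2]
          · simp [h1, h2]
        · by_cases h2 : j < t
          · simp only [h1, h2, if_true, if_false, false_or]
            constructor
            · rintro ⟨-, h3, -⟩; omega
            · rintro (h3 | ⟨h3, -⟩) <;> omega
          · simp only [h1, h2, if_false, false_or]
            rw [hb' (i - t) (j - t) (by omega) (by omega)]
            constructor
            · rintro ⟨-, -, h3 | ⟨h3, h4⟩⟩
              · left; omega
              · right; exact ⟨by omega, h4⟩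
            · rintro (h3 | ⟨h3, h4⟩)
              · exact ⟨by omega, by omega, Or.inl (by omega)⟩
              · exact ⟨by omega, by omega, Or.inr ⟨by omega, h4⟩⟩
      | false =>
        rw [List.append_assoc, before_replicate_false, Bool.not_false, before_replicate_true]
        by_cases h1 : i < t
        · by_cases h2 : j < t
          · simp [h1, h2]
          · simp only [h1, h2, if_true, if_false]
            constructor
            · intro _; left; omega
            · intro _; exact ⟨by omega, Or.inl trivial⟩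
        · by_cases h2 : j < t
          · simp only [h1, h2, if_true, if_false]
            constructor
            · rintro ⟨h3, -⟩; omega
            · rintro (h3 | ⟨h3, -⟩) <;> omega
          · simp only [h1, h2, if_false, false_or]
            rw [hb' (i - t) (j - t) (by omega) (by omega)]
            constructor
            · rintro ⟨-, -, h3 | ⟨h3, h4⟩⟩
              · left; omega
              · right; exact ⟨by omega, h4⟩
            · rintro (h3 | ⟨h3, h4⟩)
              · exact ⟨by omega, by omega, Or.inl (by omega)⟩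
              · exact ⟨by omega, by omega, Or.inr ⟨by omega, h4⟩⟩

/-- position inside a segment -/
def pos (sg : ℕ → Bool) (k a j : ℕ) : ℕ := if sg j = true then a else k - 1 - a

lemma pos_lt {sg : ℕ → Bool} {k a j : ℕ} (ha : a < k) : pos sg k a j < k := by
  unfold pos
  split_ifs <;> omega

/-- The elements of an edge in system `a`, in increasing order. -/
lemma nth_system {r k l a : ℕ} {L : ℕ → ℕ} {sg : ℕ → Bool} (hL : Monotone L)
    (hsg : ∀ i j, L i = L j → sg i = sg j) (ha : a < k) {e : Finset ℕ} (he : e.card = r)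
    {x : Fin r → ℕ} (hxe : ∀ y, y ∈ e ↔ ∃ j, x j = y)
    (hsys : ∀ j : Fin r, x j / l = L j * k + pos sg k a j) (j : ℕ) (hj : j < r) :
    nth e j / l = L j * k + pos sg k a j := by
  have h1 : ∀ i : Fin r, ∃ j, x j = nth e i := fun i =>
    (hxe _).1 (nth_mem (by rw [he]; exact i.2))
  choose σ hσ using h1
  have hinj : Function.Injective σ := by
    intro i i' h
    have h2 : nth e i = nth e i' := by rw [← hσ, ← hσ, h]
    rcases lt_trichotomy i i' with h3 | h3 | h3
    · have := nth_lt_nth (e := e) (i := i) (j := i') h3 (by rw [he]; exact i'.2)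
      omega
    · exact h3
    · have := nth_lt_nth (e := e) (i := i') (j := i) h3 (by rw [he]; exact i.2)
      omega
  let τ : Equiv.Perm (Fin r) := Equiv.ofBijective σ
    ((Fintype.bijective_iff_injective_and_card σ).2 ⟨hinj, rfl⟩)
  have hseg : ∀ i : Fin r, nth e i / l / k = L (σ i) := by
    intro i
    rw [← hσ i, hsys, mul_comm, Nat.mul_add_div (by omega), Nat.div_eq_of_lt (pos_lt ha)]
    rfl
  have hmono : Monotone ((fun i : Fin r => L i) ∘ τ) := by
    intro i i' hii
    change L (σ i) ≤ L (σ i')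
    rw [← hseg, ← hseg]
    apply Nat.div_le_div_right
    apply Nat.div_le_div_right
    rcases lt_or_eq_of_le hii with h | h
    · exact (nth_lt_nth h (by rw [he]; exact i'.2)).le
    · rw [h]
  have hmono1 : Monotone ((fun i : Fin r => L i) ∘ (1 : Equiv.Perm (Fin r))) := by
    intro i i' hii
    exact hL hii
  have heq := Tuple.unique_monotone hmono hmono1
  have h3 : L (σ ⟨j, hj⟩) = L j := congrFun heq ⟨j, hj⟩
  have h4 : sg (σ ⟨j, hj⟩) = sg j := hsg _ _ h3
  have h5 := hσ ⟨j, hj⟩
  simp only at h5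
  rw [← h5, hsys, h3]
  congr 1
  unfold pos
  rw [h4]

lemma div_lt_imp {a b l : ℕ} (h : a / l < b / l) : a < b :=
  lt_of_not_ge fun h' => absurd (Nat.div_le_div_right h') (not_le.2 h)

/-- Two edges in different systems form the pattern `w`. -/
lemma system_pattern {r k l a b : ℕ} {w : List Bool} {L : ℕ → ℕ} {sg : ℕ → Bool}
    (hr : 0 < r) (h1 : w.count true = r) (h2 : w.count false = r) (h0 : w.head? = some true)
    (hb : ∀ i j, i < r → j < r → (before w i j ↔ (L i < L j ∨ (L i = L j ∧ sg i = true))))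
    (hsg : ∀ i j, L i = L j → sg i = sg j)
    (hab : a < b) (hbk : b < k) {e f : Finset ℕ} (he : e.card = r) (hf : f.card = r)
    (hne : ∀ j < r, nth e j / l = L j * k + pos sg k a j)
    (hnf : ∀ j < r, nth f j / l = L j * k + pos sg k b j) :
    pattern e f = w ∧ pattern f e = w ∧ e ≠ f := by
  have hpa : ∀ j, pos sg k a j < k := fun j => pos_lt (by omega)
  have hpb : ∀ j, pos sg k b j < k := fun j => pos_lt (by omega)
  have hlt : ∀ i j, i < r → j < r → L i < L j → nth e i < nth f j := by
    intro i j hi hj h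
    apply div_lt_imp (l := l)
    rw [hne i hi, hnf j hj]
    have h3 := hpa i
    have h4 : (L i + 1) * k ≤ L j * k := Nat.mul_le_mul_right _ h
    rw [Nat.add_mul, Nat.one_mul] at h4
    omega
  have hgt : ∀ i j, i < r → j < r → L j < L i → nth f j < nth e i := by
    intro i j hi hj h
    apply div_lt_imp (l := l)
    rw [hne i hi, hnf j hj]
    have h3 := hpb j
    have h4 : (L j + 1) * k ≤ L i * k := Nat.mul_le_mul_right _ h
    rw [Nat.add_mul, Nat.one_mul] at h4
    omega
  have heqt : ∀ i j, i < r → j < r → L i = L j → sg i = true → nth e i < nth f j := by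
    intro i j hi hj h hs
    apply div_lt_imp (l := l)
    rw [hne i hi, hnf j hj, h]
    have hs' : sg j = true := by rw [← hsg i j h]; exact hs
    simp only [pos, hs, hs', if_true]
    omega
  have heqf : ∀ i j, i < r → j < r → L i = L j → sg i ≠ true → nth f j < nth e i := by
    intro i j hi hj h hs
    apply div_lt_imp (l := l)
    rw [hne i hi, hnf j hj, h]
    have hs' : sg j ≠ true := by rw [← hsg i j h]; exact hs
    simp only [pos, if_neg hs, if_neg hs']
    omega
  have hiff : ∀ i j, i < r → j < r → (nth e i < nth f j ↔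
      (L i < L j ∨ (L i = L j ∧ sg i = true))) ∧ nth e i ≠ nth f j := by
    intro i j hi hj
    rcases lt_trichotomy (L i) (L j) with h | h | h
    · have := hlt i j hi hj h
      exact ⟨⟨fun _ => Or.inl h, fun _ => this⟩, by omega⟩
    · by_cases hs : sg i = true
      · have := heqt i j hi hj h hs
        exact ⟨⟨fun _ => Or.inr ⟨h, hs⟩, fun _ => this⟩, by omega⟩
      · have := heqf i j hi hj h hs
        refine ⟨⟨fun h' => by omega, ?_⟩, by omega⟩
        rintro (h' | ⟨-, h'⟩)
        · omega
        · exact absurd h' hs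
    · have := hgt i j hi hj h
      refine ⟨⟨fun h' => by omega, ?_⟩, by omega⟩
      rintro (h' | ⟨h', -⟩) <;> omega
  have hdis : Disjoint e f := by
    rw [Finset.disjoint_left]
    intro x hx hx'
    obtain ⟨i, hi, rfl⟩ := exists_nth hx
    obtain ⟨j, hj, hj'⟩ := exists_nth hx'
    exact (hiff i j (by omega) (by omega)).2 hj'.symm
  have hword : word e f = w := by
    apply before_ext (r := r) (s := r)
    · rw [count_true_word, he]
    · rw [count_false_word hdis, hf]
    · exact h1
    · exact h2
    · intro i j hi hj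
      rw [before_word hdis (by omega) (by omega), (hiff i j hi hj).1, hb i j hi hj]
  have hb00 : before w 0 0 := by
    cases w with
    | nil => simp at h0
    | cons c w =>
      simp only [List.head?_cons, Option.some.injEq] at h0
      subst h0
      exact before_true_zero _ _
  have hlt0 : nth e 0 < nth f 0 := by
    rw [← before_word hdis (by omega) (by omega), hword]; exact hb00
  refine ⟨?_, ?_, ?_⟩
  · rw [pattern_eq_word (by omega) hlt0, hword]
  · rw [pattern_eq_word' (by omega) hlt0, hword]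
  · rintro rfl
    exact lt_irrefl _ hlt0

/-! ### Occupied systems -/

lemma card_cell {M l q : ℕ} (hl : 0 < l) (hq : q < M) :
    (univ.filter (fun y : Fin (M * l) => (y : ℕ) / l = q)).card = l := by
  have h1 : Finset.image (fun y : Fin (M * l) => (y : ℕ))
      (univ.filter (fun y : Fin (M * l) => (y : ℕ) / l = q))
      = Finset.Ico (q * l) (q * l + l) := by
    ext y
    simp only [Finset.mem_image, Finset.mem_filter, Finset.mem_univ, true_and, Finset.mem_Ico]
    constructor
    · rintro ⟨y, hy, rfl⟩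
      rw [← hy]
      exact ⟨Nat.div_mul_le_self _ _, Nat.lt_div_mul_add hl⟩
    · rintro ⟨h1, h2⟩
      have h3 : y < M * l := by
        have : (q + 1) * l ≤ M * l := Nat.mul_le_mul_right _ hq
        rw [Nat.add_mul, Nat.one_mul] at this
        omega
      refine ⟨⟨y, h3⟩, ?_, rfl⟩
      simp only
      rw [Nat.div_eq_iff hl]
      constructor
      · exact h1
      · omega
  have h2 := congrArg Finset.card h1
  rw [Finset.card_image_of_injective _ Fin.val_injective] at h2
  rw [h2]; simp

/-- The configurations of one edge in system `a`. -/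
def sysSet (r k l : ℕ) (L : ℕ → ℕ) (sg : ℕ → Bool) (a : ℕ) :
    Finset (Fin r → Fin (r * k * l)) :=
  univ.filter (fun x => ∀ j : Fin r, (x j : ℕ) / l = L j * k + pos sg k a j)

lemma card_sysSet {r k l a : ℕ} {L : ℕ → ℕ} {sg : ℕ → Bool} (hl : 0 < l) (hL : ∀ i, L i ≤ i)
    (ha : a < k) : (sysSet r k l L sg a).card = l ^ r := by
  have h1 : sysSet r k l L sg a = Fintype.piFinset (fun j : Fin r =>
      univ.filter (fun y : Fin (r * k * l) => (y : ℕ) / l = L j * k + pos sg k a j)) := by
    ext x
    simp [sysSet, Fintype.mem_piFinset]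
  rw [h1, Fintype.card_piFinset, Finset.prod_congr rfl (g := fun _ => l)]
  · simp
  · intro j _
    apply card_cell hl
    have h2 : L j < r := lt_of_le_of_lt (hL j) j.2
    have h3 : pos sg k a j < k := pos_lt ha
    have h4 : (L j + 1) * k ≤ r * k := Nat.mul_le_mul_right _ h2
    rw [Nat.add_mul, Nat.one_mul] at h4
    omega

lemma sysSet_disjoint {r k l a b : ℕ} {L : ℕ → ℕ} {sg : ℕ → Bool} (hr : 0 < r)
    (ha : a < k) (hb : b < k) (hab : a ≠ b) :
    Disjoint (sysSet r k l L sg a) (sysSet r k l L sg b) := by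
  rw [Finset.disjoint_left]
  intro x hx hx'
  simp only [sysSet, Finset.mem_filter, Finset.mem_univ, true_and] at hx hx'
  have h1 := hx ⟨0, hr⟩
  have h2 := hx' ⟨0, hr⟩
  rw [h1] at h2
  simp only [pos] at h2
  split_ifs at h2 <;> omega

/-- number of sequences avoiding a set -/
lemma card_avoid {α : Type*} [Fintype α] [DecidableEq α] (n : ℕ) (U : Finset α) :
    (univ.filter (fun ω : Fin n → α => ∀ i, ω i ∉ U)).card = (Fintype.card α - U.card) ^ n := by
  have h1 : univ.filter (fun ω : Fin n → α => ∀ i, ω i ∉ U)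
      = Fintype.piFinset (fun _ : Fin n => Uᶜ) := by
    ext ω
    simp [Fintype.mem_piFinset]
  rw [h1, Fintype.card_piFinset]
  simp [Finset.card_compl]

open Classical in
/-- The number of boxes not hit by the sequence `ω`. -/
noncomputable def emptyBoxes {α : Type*} {n k : ℕ} (S : Fin k → Finset α) (ω : Fin n → α) : ℕ :=
  (univ.filter (fun a : Fin k => ∀ i, ω i ∉ S a)).card

open Classical in
/-- Chebyshev's inequality for the number of empty boxes, in counting form. -/
lemma chebyshev_boxes {α : Type*} [Fintype α] (n k s : ℕ) (S : Fin k → Finset α)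
    (hS : ∀ a, (S a).card = s) (hd : ∀ a b, a ≠ b → Disjoint (S a) (S b))
    (hN : 0 < Fintype.card α) (hs : s ≤ Fintype.card α) (t : ℝ) (ht : 0 < t)
    (F : Finset (Fin n → α)) (hF : ∀ ω ∈ F,
      (k : ℝ) * (1 - (s : ℝ) / Fintype.card α) ^ n + t ≤ (emptyBoxes S ω : ℝ)) :
    (F.card : ℝ) * t ^ 2 ≤ (k : ℝ) * (Fintype.card α : ℝ) ^ n := by
  set N := Fintype.card α with hNdef
  set x : ℝ := (1 - (s : ℝ) / N) ^ n with hx
  set μ : ℝ := (k : ℝ) * x with hμ
  set D : (Fin n → α) → ℝ := fun ω => (emptyBoxes S ω : ℝ) with hD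
  have hN' : (0 : ℝ) < N := by exact_mod_cast hN
  have hDsum : ∀ ω, D ω = ∑ a : Fin k, (if ∀ i, ω i ∉ S a then (1 : ℝ) else 0) := by
    intro ω
    rw [hD]
    simp only [emptyBoxes]
    rw [Finset.card_filter]
    push_cast
    rfl
  have hsN : (s : ℝ) / N ≤ 1 := by
    rw [div_le_one hN']; exact_mod_cast hs
  have e1 : ∀ a, ∑ ω : Fin n → α, (if ∀ i, ω i ∉ S a then (1 : ℝ) else 0) = (N : ℝ) ^ n * x := by
    intro a
    rw [Finset.sum_boole, card_avoid, hS, hx, ← mul_pow, Nat.cast_pow, Nat.cast_sub hs]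
    congr 1
    field_simp
  have e2 : ∀ a b, a ≠ b → ∑ ω : Fin n → α,
      ((if ∀ i, ω i ∉ S a then (1 : ℝ) else 0) * (if ∀ i, ω i ∉ S b then (1 : ℝ) else 0))
      ≤ (N : ℝ) ^ n * x ^ 2 := by
    intro a b hab
    have h1 : ∀ ω : Fin n → α,
        ((if ∀ i, ω i ∉ S a then (1 : ℝ) else 0) * (if ∀ i, ω i ∉ S b then (1 : ℝ) else 0))
        = if ∀ i, ω i ∉ S a ∪ S b then (1 : ℝ) else 0 := by
      intro ω
      by_cases h1 : ∀ i, ω i ∉ S a
      · by_cases h2 : ∀ i, ω i ∉ S b
        · rw [if_pos h1, if_pos h2, if_pos, one_mul]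
          intro i hi
          rcases Finset.mem_union.1 hi with h | h
          · exact h1 i h
          · exact h2 i h
        · rw [if_neg h2, mul_zero, if_neg]
          intro h; exact h2 (fun i hi => h i (Finset.mem_union_right _ hi))
      · rw [if_neg h1, zero_mul, if_neg]
        intro h; exact h1 (fun i hi => h i (Finset.mem_union_left _ hi))
    rw [Finset.sum_congr rfl (fun ω _ => h1 ω), Finset.sum_boole, card_avoid,
      Finset.card_union_of_disjoint (hd a b hab), hS, hS]
    have h2s : s + s ≤ N := by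
      have := Finset.card_le_univ (S a ∪ S b)
      rwa [Finset.card_union_of_disjoint (hd a b hab), hS, hS] at this
    rw [Nat.cast_pow, Nat.cast_sub h2s, hx, ← pow_mul, mul_comm n 2, pow_mul, ← mul_pow]
    apply pow_le_pow_left₀
    · rw [sub_nonneg]; exact_mod_cast h2s
    · have : (N : ℝ) * (1 - (s : ℝ) / N) ^ 2 = (N : ℝ) - 2 * s + (s : ℝ) ^ 2 / N := by
        field_simp
        ring
      rw [this]
      have h3 : (0 : ℝ) ≤ (s : ℝ) ^ 2 / N := by positivity
      push_cast
      linarith
  have hx0 : 0 ≤ x := by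
    rw [hx]; apply pow_nonneg; linarith
  have hx1 : x ≤ 1 := by
    rw [hx]
    apply pow_le_one₀
    · linarith
    · have : (0 : ℝ) ≤ (s : ℝ) / N := by positivity
      linarith
  have hk0 : (0 : ℝ) ≤ k := by positivity
  have hNn : (0 : ℝ) < (N : ℝ) ^ n := by positivity
  have f1 : ∑ ω : Fin n → α, D ω = (k : ℝ) * ((N : ℝ) ^ n * x) := by
    simp_rw [hDsum]
    rw [Finset.sum_comm]
    rw [Finset.sum_congr rfl (fun a _ => e1 a)]
    simp
  have f2 : ∑ ω : Fin n → α, D ω ^ 2 ≤ (k : ℝ) * ((N : ℝ) ^ n * x)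
      + (k : ℝ) ^ 2 * ((N : ℝ) ^ n * x ^ 2) := by
    simp_rw [hDsum, sq, Finset.sum_mul_sum]
    rw [Finset.sum_comm]
    have h3 : ∀ a : Fin k, ∑ ω : Fin n → α, ∑ b : Fin k,
        ((if ∀ i, ω i ∉ S a then (1 : ℝ) else 0) * (if ∀ i, ω i ∉ S b then (1 : ℝ) else 0))
        ≤ (N : ℝ) ^ n * x + (k : ℝ) * ((N : ℝ) ^ n * x ^ 2) := by
      intro a
      rw [Finset.sum_comm]
      have h4 : ∀ b : Fin k, ∑ ω : Fin n → α,
          ((if ∀ i, ω i ∉ S a then (1 : ℝ) else 0) * (if ∀ i, ω i ∉ S b then (1 : ℝ) else 0))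
          ≤ (if a = b then (N : ℝ) ^ n * x else 0) + (N : ℝ) ^ n * x ^ 2 := by
        intro b
        by_cases hab : a = b
        · subst hab
          rw [if_pos rfl]
          have : ∀ ω : Fin n → α,
              ((if ∀ i, ω i ∉ S a then (1 : ℝ) else 0) * (if ∀ i, ω i ∉ S a then (1 : ℝ) else 0))
              = (if ∀ i, ω i ∉ S a then (1 : ℝ) else 0) := by
            intro ω; split_ifs <;> simp
          rw [Finset.sum_congr rfl (fun ω _ => this ω), e1]
          have : (0 : ℝ) ≤ (N : ℝ) ^ n * x ^ 2 := by positivity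
          linarith
        · rw [if_neg hab, zero_add]
          exact e2 a b hab
      refine (Finset.sum_le_sum (fun b _ => h4 b)).trans ?_
      rw [Finset.sum_add_distrib]
      simp
    refine (Finset.sum_le_sum (fun a _ => h3 a)).trans ?_
    simp
    ring_nf
    exact le_refl _
  have f3 : ∑ ω : Fin n → α, (D ω - μ) ^ 2 ≤ (k : ℝ) * (N : ℝ) ^ n := by
    have h5 : ∑ ω : Fin n → α, (D ω - μ) ^ 2
        = ∑ ω : Fin n → α, D ω ^ 2 - 2 * μ * ∑ ω : Fin n → α, D ω + (N : ℝ) ^ n * μ ^ 2 := by
      have : ∀ ω : Fin n → α, (D ω - μ) ^ 2 = D ω ^ 2 - 2 * μ * D ω + μ ^ 2 := fun ω => by ring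
      rw [Finset.sum_congr rfl (fun ω _ => this ω), Finset.sum_add_distrib,
        Finset.sum_sub_distrib, Finset.mul_sum]
      congr 1
      rw [Finset.sum_const, Finset.card_univ, Fintype.card_fun, Fintype.card_fin, nsmul_eq_mul]
      push_cast
      rfl
    rw [h5, f1, hμ]
    have h6 : (k : ℝ) * ((N : ℝ) ^ n * x) ≤ (k : ℝ) * (N : ℝ) ^ n := by
      apply mul_le_mul_of_nonneg_left _ hk0
      calc (N : ℝ) ^ n * x ≤ (N : ℝ) ^ n * 1 := mul_le_mul_of_nonneg_left hx1 hNn.le
        _ = (N : ℝ) ^ n := mul_one _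
    nlinarith [f2]
  calc _ = ∑ ω ∈ F, t ^ 2 := by
        rw [Finset.sum_const, nsmul_eq_mul]
    _ ≤ ∑ ω ∈ F, (D ω - μ) ^ 2 := by
        apply Finset.sum_le_sum
        intro ω hω
        apply pow_le_pow_left₀ ht.le
        linarith [hF ω hω]
    _ ≤ ∑ ω : Fin n → α, (D ω - μ) ^ 2 := by
        apply Finset.sum_le_sum_of_subset_of_nonneg (Finset.subset_univ _)
        intro ω _ _
        positivity
    _ ≤ _ := f3

open Classical in
lemma occupied_le {r n k l : ℕ} (hr : 0 < r) {Pt : Set (List Bool)} {P : List Bool}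
    (hP : P ∈ Pt) (hPr : IsRPattern r P) {L : ℕ → ℕ} {sg : ℕ → Bool} (hL : Monotone L)
    (hsg : ∀ i j, L i = L j → sg i = sg j)
    (hb : ∀ i j, i < r → j < r → (before P i j ↔ (L i < L j ∨ (L i = L j ∧ sg i = true))))
    (σ : Fin n × Fin r ≃ Fin (r * n)) (φ : Fin (r * n) ↪o Fin (r * k * l)) :
    (univ.filter (fun a : Fin k => ∃ i : Fin n,
      (fun j : Fin r => φ (σ (i, j))) ∈ sysSet r k l L sg a)).card ≤
      maxClique Pt (toOM hr σ) := by
  set Oc := univ.filter (fun a : Fin k => ∃ i : Fin n,
      (fun j : Fin r => φ (σ (i, j))) ∈ sysSet r k l L sg a) with hOc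
  have hex : ∀ a ∈ Oc, ∃ i : Fin n, (fun j : Fin r => φ (σ (i, j))) ∈ sysSet r k l L sg a := by
    intro a ha
    rw [hOc, Finset.mem_filter] at ha
    exact ha.2
  rcases Finset.eq_empty_or_nonempty Oc with h0 | h0
  · rw [h0]; simp
  have hn : Nonempty (Fin n) := by
    obtain ⟨a, ha⟩ := h0
    obtain ⟨i, -⟩ := hex a ha
    exact ⟨i⟩
  set I : Fin k → Fin n := fun a => if h : a ∈ Oc then (hex a h).choose else hn.some with hI
  have hIs : ∀ a ∈ Oc, (fun j : Fin r => φ (σ (I a, j))) ∈ sysSet r k l L sg a := by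
    intro a ha
    simp only [hI, dif_pos ha]
    exact (hex a ha).choose_spec
  set ω : Fin n × Fin r → Fin (r * k * l) := fun x => φ (σ x) with hω
  have hωinj : Function.Injective (cst ω) := by
    intro x y hxy
    exact σ.injective (φ.injective (Fin.ext hxy))
  have hnth : ∀ a ∈ Oc, ∀ j < r, nth (edge (cst ω) (I a)) j / l = L j * k + pos sg k a j := by
    intro a ha j hj
    have h1 := hIs a ha
    simp only [sysSet, Finset.mem_filter, Finset.mem_univ, true_and] at h1
    exact nth_system (r := r) hL hsg a.2 (card_edge hωinj _) (x := fun j => cst ω (I a, j))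
      (fun y => mem_edge) h1 j hj
  have key : ∀ a ∈ Oc, ∀ b ∈ Oc, a < b →
      pattern (edge (sv σ) (I a)) (edge (sv σ) (I b)) = P ∧
      pattern (edge (sv σ) (I b)) (edge (sv σ) (I a)) = P ∧
      edge (sv σ) (I a) ≠ edge (sv σ) (I b) := by
    intro a ha b hb' hab
    have h1 := system_pattern (l := l) hr hPr.1 hPr.2.1 hPr.2.2 hb hsg (a := a) (b := b) hab b.2
      (card_edge hωinj (I a)) (card_edge hωinj (I b)) (hnth a ha) (hnth b hb')
    have h2 := pattern_edge_comp (fun x => σ x) φ (I a) (I b)
    have h3 := pattern_edge_comp (fun x => σ x) φ (I b) (I a)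
    refine ⟨?_, ?_, ?_⟩
    · exact h2.symm.trans h1.1
    · exact h3.symm.trans h1.2.1
    · intro h
      apply h1.2.2
      rw [edge_injective hr (sv_injective σ) h]
  set C := Oc.image (fun a => edge (sv σ) (I a)) with hC
  have hCc : C.card = Oc.card := by
    rw [hC]
    apply Finset.card_image_of_injOn
    intro a ha b hb' hab
    rcases lt_trichotomy a b with h | h | h
    · exact absurd hab (key a ha b hb' h).2.2
    · exact h
    · exact absurd hab.symm (key b hb' a ha h).2.2
  rw [← hCc, maxClique]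
  apply Finset.le_sup (f := Finset.card)
  rw [Finset.mem_filter, Finset.mem_powerset, toOM_parts]
  refine ⟨?_, ?_⟩
  · intro e he
    obtain ⟨a, -, rfl⟩ := Finset.mem_image.1 he
    exact Finset.mem_image_of_mem _ (Finset.mem_univ _)
  · intro e he f hf hne
    obtain ⟨a, ha, rfl⟩ := Finset.mem_image.1 he
    obtain ⟨b, hb', rfl⟩ := Finset.mem_image.1 hf
    rcases lt_trichotomy a b with h | h | h
    · rw [(key a ha b hb' h).1]; exact hP
    · exact absurd (by rw [h]) hne
    · rw [(key b hb' a ha h).2.1]; exact hP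

open Classical in
/-- **Lower tail**. -/
theorem lower_tail {r : ℕ} (hr : 0 < r) {Pt : Set (List Bool)} {P : List Bool} (hP : P ∈ Pt)
    (hPr : IsRPattern r P) {μ : List ℕ} (hs : SplitsAs P μ) (n k K : ℕ) (hk : 0 < k)
    (hkn : k ^ r ≤ n) (ρ : ℝ) (hρ : ρ = Real.exp (-(1 / (r : ℝ) ^ r)))
    (hK : (K : ℝ) ≤ k * (1 - ρ) / 2) :
    prob r n (fun M => maxClique Pt M < K) ≤ 8 / (k * (1 - ρ) ^ 2) := by
  obtain ⟨L, sg, hL, hLi, hsg, hb⟩ := splits_repr hs
  rw [hPr.1] at hb
  set l := 2 * (r * n) ^ 2 + 1 with hl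
  set m := r * k * l with hm
  have hrk : 0 < r * k := Nat.mul_pos hr hk
  have hl0 : 0 < l := by omega
  have hm0 : 0 < m := Nat.mul_pos hrk hl0
  have hlm : l ≤ m := by rw [hm]; exact Nat.le_mul_of_pos_left _ hrk
  have hdesc : (m : ℝ) ^ (r * n) ≤ 2 * (m.descFactorial (r * n) : ℝ) :=
    pow_le_two_mul_descFactorial hm0 (by omega)
  have hρ1 : ρ < 1 := by
    rw [hρ, Real.exp_lt_one_iff]
    have : (0 : ℝ) < 1 / (r : ℝ) ^ r := by positivity
    linarith
  have hk' : (0 : ℝ) < k := by exact_mod_cast hk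
  set t : ℝ := k * (1 - ρ) / 2 with ht
  have ht0 : 0 < t := by
    rw [ht]
    have : 0 < 1 - ρ := by linarith
    positivity
  set α := Fin r → Fin m with hα
  have hcα : Fintype.card α = m ^ r := by simp [hα]
  have hcα' : (Fintype.card α : ℝ) = (m : ℝ) ^ r := by rw [hcα]; push_cast; rfl
  set S : Fin k → Finset α := fun a => sysSet r k l L sg a with hS
  have hSc : ∀ a, (S a).card = l ^ r := fun a => card_sysSet hl0 hLi a.2
  have hSd : ∀ a b, a ≠ b → Disjoint (S a) (S b) := fun a b hab =>
    sysSet_disjoint hr a.2 b.2 (fun h => hab (Fin.ext h))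
  have hcheb' := chebyshev_boxes n k (l ^ r) S hSc hSd (by rw [hcα]; positivity)
    (by rw [hcα]; exact Nat.pow_le_pow_left hlm r) t ht0
  set x : ℝ := (1 - ((l ^ r : ℕ) : ℝ) / Fintype.card α) ^ n with hx
  have hxρ : x ≤ ρ := by
    have h1 : ((l ^ r : ℕ) : ℝ) / Fintype.card α = 1 / ((r : ℝ) * k) ^ r := by
      rw [hcα', hm]
      push_cast
      have : (0 : ℝ) < l := by exact_mod_cast hl0
      have h2 : (0 : ℝ) < r := by exact_mod_cast hr
      rw [mul_pow ((r : ℝ) * k) l r]
      field_simp
    rw [hx, h1, hρ]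
    have h2 : (0 : ℝ) < r := by exact_mod_cast hr
    have h3 : (1 : ℝ) / ((r : ℝ) * k) ^ r ≤ 1 := by
      rw [div_le_one (by positivity)]
      apply one_le_pow₀
      have h4 : (1 : ℝ) ≤ r := by exact_mod_cast hr
      have h5 : (1 : ℝ) ≤ k := by exact_mod_cast hk
      nlinarith
    have h4 : 1 - 1 / ((r : ℝ) * k) ^ r ≤ Real.exp (-(1 / ((r : ℝ) * k) ^ r)) := by
      have := Real.add_one_le_exp (-(1 / ((r : ℝ) * k) ^ r))
      linarith
    calc (1 - 1 / ((r : ℝ) * k) ^ r) ^ n ≤ (Real.exp (-(1 / ((r : ℝ) * k) ^ r))) ^ n :=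
          pow_le_pow_left₀ (by linarith) h4 n
      _ = Real.exp ((n : ℝ) * (-(1 / ((r : ℝ) * k) ^ r))) := by rw [← Real.exp_nat_mul]
      _ ≤ Real.exp (-(1 / (r : ℝ) ^ r)) := by
          apply Real.exp_le_exp.2
          have h5 : ((k : ℝ)) ^ r ≤ n := by exact_mod_cast hkn
          rw [mul_pow, mul_neg, neg_le_neg_iff]
          have h6 : (1 : ℝ) / (r : ℝ) ^ r = (k : ℝ) ^ r * (1 / ((r : ℝ) ^ r * (k : ℝ) ^ r)) := by
            field_simp
          rw [h6]
          exact mul_le_mul_of_nonneg_right h5 (by positivity)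
  set Q' : (Fin n × Fin r → Fin m) → Prop := fun ω => (k : ℝ) * x + t ≤
      (emptyBoxes S (fun i j => ω (i, j)) : ℝ) with hQ'
  have h1 := prob_le (n := n) hr m hm0 hdesc (fun M => maxClique Pt M < K) Q' (by
    intro σ hσ φ
    rw [hQ']
    simp only
    by_contra hcon
    push Not at hcon
    have h2 := occupied_le hr hP hPr hL hsg hb σ φ
    have h3 : (univ.filter (fun a : Fin k => ∃ i : Fin n,
        (fun j : Fin r => φ (σ (i, j))) ∈ sysSet r k l L sg a)).card
        + emptyBoxes S (fun i j => φ (σ (i, j))) = k := by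
      have := Finset.card_filter_add_card_filter_not (s := (univ : Finset (Fin k)))
        (p := fun a : Fin k => ∃ i : Fin n,
          (fun j : Fin r => φ (σ (i, j))) ∈ sysSet r k l L sg a)
      simp only [not_exists, Finset.card_univ, Fintype.card_fin] at this
      rw [emptyBoxes]
      convert this
    have h4 : ((univ.filter (fun a : Fin k => ∃ i : Fin n,
        (fun j : Fin r => φ (σ (i, j))) ∈ sysSet r k l L sg a)).card : ℝ)
        + (emptyBoxes S (fun i j => φ (σ (i, j))) : ℝ) = k := by
      exact_mod_cast h3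
    have h5 : ((univ.filter (fun a : Fin k => ∃ i : Fin n,
        (fun j : Fin r => φ (σ (i, j))) ∈ sysSet r k l L sg a)).card : ℝ) < K := by
      have : ((univ.filter (fun a : Fin k => ∃ i : Fin n,
        (fun j : Fin r => φ (σ (i, j))) ∈ sysSet r k l L sg a)).card) < K :=
        lt_of_le_of_lt h2 hσ
      exact_mod_cast this
    have h6 : (k : ℝ) * x ≤ k * ρ := mul_le_mul_of_nonneg_left hxρ hk'.le
    have h7 : (k : ℝ) - t = k * ρ + t := by rw [ht]; ring
    have h8 : (K : ℝ) ≤ t := hK
    linarith)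
  refine h1.trans ?_
  have h2 : ((univ.filter Q').image (fun ω => fun i j => ω (i, j))).card
      = (univ.filter Q').card := by
    apply Finset.card_image_of_injective
    intro ω ω' h
    funext y
    exact congrFun (congrFun h y.1) y.2
  have hcheb := hcheb' ((univ.filter Q').image (fun ω => fun i j => ω (i, j))) (by
    intro ω hω
    obtain ⟨ω', hω', rfl⟩ := Finset.mem_image.1 hω
    exact (Finset.mem_filter.1 hω').2)
  rw [h2] at hcheb
  generalize ((univ.filter Q').card : ℝ) = c at hcheb ⊢
  have hm' : (0 : ℝ) < (m : ℝ) := by exact_mod_cast hm0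
  have h3 : ((Fintype.card α : ℝ)) ^ n = (m : ℝ) ^ (r * n) := by
    rw [hcα', ← pow_mul]
  rw [h3] at hcheb
  have hρ0 : 0 < 1 - ρ := by linarith
  rw [div_le_div_iff₀ (by positivity) (by positivity)]
  have h4 : t ^ 2 = (k : ℝ) ^ 2 * (1 - ρ) ^ 2 / 4 := by rw [ht]; ring
  rw [h4] at hcheb
  have h5 : c * (k * (1 - ρ) ^ 2) * k ≤ (4 * (m : ℝ) ^ (r * n)) * k := by
    linarith
  have h6 := le_of_mul_le_mul_right h5 hk'
  linarith

end Pool.Agent.Helper98.OM
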