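import Pool.Agent.Helper98.OrdCount

/-!
# Uniform random ordered matchings
-/

namespace Pool.Agent.Helper98.OM

open Finset

variable {r n : ℕ}

/-- The `i`-th edge of a labelled family. -/
def edge (ω : Fin n × Fin r → ℕ) (i : Fin n) : Finset ℕ := univ.image (fun j => ω (i, j))

lemma mem_edge {ω : Fin n × Fin r → ℕ} {i : Fin n} {x : ℕ} :
    x ∈ edge ω i ↔ ∃ j, ω (i, j) = x := by
  simp [edge]

lemma card_edge {ω : Fin n × Fin r → ℕ} (hω : Function.Injective ω) (i : Fin n) :
    (edge ω i).card = r := by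
  rw [edge, Finset.card_image_of_injective]
  · simp
  · intro j j' h
    exact (Prod.mk.inj (hω h)).2

lemma edge_disjoint {ω : Fin n × Fin r → ℕ} (hω : Function.Injective ω) {i i' : Fin n}
    (h : i ≠ i') : Disjoint (edge ω i) (edge ω i') := by
  rw [Finset.disjoint_left]
  intro x hx hx'
  obtain ⟨j, rfl⟩ := mem_edge.1 hx
  obtain ⟨j', hj'⟩ := mem_edge.1 hx'
  exact h (Prod.mk.inj (hω hj')).1.symm

lemma edge_injective {ω : Fin n × Fin r → ℕ} (hr : 0 < r) (hω : Function.Injective ω) :
    Function.Injective (edge ω) := by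
  intro i i' h
  by_contra hne
  have h1 := edge_disjoint hω hne
  rw [h] at h1
  have h2 : (edge ω i').card = 0 := by rw [Finset.card_eq_zero, ← Finset.disjoint_self_iff_empty]; exact h1
  rw [card_edge hω] at h2
  omega

/-- The value function of a labelling. -/
def sv (σ : Fin n × Fin r ≃ Fin (r * n)) : Fin n × Fin r → ℕ := fun x => (σ x : ℕ)

lemma sv_injective (σ : Fin n × Fin r ≃ Fin (r * n)) : Function.Injective (sv σ) :=
  fun _ _ h => σ.injective (Fin.ext h)

/-- The matching of a labelling. -/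
def toOM (hr : 0 < r) (σ : Fin n × Fin r ≃ Fin (r * n)) : OrdMatching r n :=
  ⟨Finpartition.ofExistsUnique (univ.image (edge (sv σ)))
    (by
      intro p hp x hx
      obtain ⟨i, -, rfl⟩ := Finset.mem_image.1 hp
      obtain ⟨j, rfl⟩ := mem_edge.1 hx
      exact Finset.mem_range.2 (σ (i, j)).2)
    (by
      intro x hx
      rw [Finset.mem_range] at hx
      refine ⟨edge (sv σ) (σ.symm ⟨x, hx⟩).1, ⟨Finset.mem_image_of_mem _ (Finset.mem_univ _), ?_⟩, ?_⟩
      · rw [mem_edge]
        exact ⟨(σ.symm ⟨x, hx⟩).2, by simp [sv]⟩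
      · rintro t ⟨ht, hxt⟩
        obtain ⟨i, -, rfl⟩ := Finset.mem_image.1 ht
        obtain ⟨j, hj⟩ := mem_edge.1 hxt
        have : (i, j) = σ.symm ⟨x, hx⟩ := by
          rw [Equiv.eq_symm_apply]; exact Fin.ext hj
        rw [← this])
    (by
      intro h
      obtain ⟨i, -, hi⟩ := Finset.mem_image.1 h
      have := card_edge (sv_injective σ) i
      rw [hi] at this
      simp at this
      omega),
  by
    intro e he
    obtain ⟨i, -, rfl⟩ := Finset.mem_image.1 he
    exact card_edge (sv_injective σ) i⟩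

lemma toOM_parts (hr : 0 < r) (σ : Fin n × Fin r ≃ Fin (r * n)) :
    (toOM hr σ).1.parts = univ.image (edge (sv σ)) := rfl

lemma card_parts (hr : 0 < r) (M : OrdMatching r n) : M.1.parts.card = n := by
  have h1 := M.1.sum_card_parts
  rw [Finset.sum_congr rfl M.2, Finset.sum_const, smul_eq_mul, Finset.card_range] at h1
  exact Nat.eq_of_mul_eq_mul_left hr (by rw [mul_comm, h1])

lemma toOM_surjective (hr : 0 < r) : Function.Surjective (toOM (n := n) hr) := by
  intro M
  have hc := card_parts hr M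
  let E : Fin n ≃ M.1.parts := (Finset.equivFinOfCardEq hc).symm
  have hEc : ∀ i, (E i : Finset ℕ).card = r := fun i => M.2 _ (E i).2
  have hEs : ∀ i, (E i : Finset ℕ) ⊆ range (r * n) := fun i => M.1.subset (E i).2
  let φ : Fin n × Fin r → Fin (r * n) := fun x =>
    ⟨nth (E x.1) x.2, Finset.mem_range.1 (hEs _ (nth_mem (by rw [hEc]; exact x.2.2)))⟩
  have hinj : Function.Injective φ := by
    rintro ⟨i, j⟩ ⟨i', j'⟩ h
    have h1 : nth (E i) j = nth (E i') j' := congrArg Fin.val h
    have m1 : nth (E i) j ∈ (E i : Finset ℕ) := nth_mem (by rw [hEc]; exact j.2)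
    have m2 : nth (E i) j ∈ (E i' : Finset ℕ) := by
      rw [h1]; exact nth_mem (by rw [hEc]; exact j'.2)
    have h2 : (E i : Finset ℕ) = E i' := M.1.eq_of_mem_parts (E i).2 (E i').2 m1 m2
    have h3 : i = i' := E.injective (Subtype.ext h2)
    subst h3
    rcases lt_trichotomy j j' with h | h | h
    · have := nth_lt_nth (e := (E i : Finset ℕ)) (i := j) (j := j') h (by rw [hEc]; exact j'.2)
      omega
    · rw [h]
    · have := nth_lt_nth (e := (E i : Finset ℕ)) (i := j') (j := j) h (by rw [hEc]; exact j.2)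
      omega
  have hbij : Function.Bijective φ := by
    rw [Fintype.bijective_iff_injective_and_card]
    refine ⟨hinj, ?_⟩
    simp [mul_comm]
  refine ⟨Equiv.ofBijective φ hbij, ?_⟩
  apply Subtype.ext
  apply Finpartition.ext
  rw [toOM_parts]
  have hedge : ∀ i, edge (sv (Equiv.ofBijective φ hbij)) i = (E i : Finset ℕ) := by
    intro i
    ext x
    rw [mem_edge]
    constructor
    · rintro ⟨j, rfl⟩
      exact nth_mem (by rw [hEc]; exact j.2)
    · intro hx
      obtain ⟨j, hj, rfl⟩ := exists_nth hx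
      rw [hEc] at hj
      exact ⟨⟨j, hj⟩, rfl⟩
  ext e
  rw [Finset.mem_image]
  constructor
  · rintro ⟨i, -, rfl⟩
    rw [hedge]; exact (E i).2
  · intro he
    refine ⟨E.symm ⟨e, he⟩, Finset.mem_univ _, ?_⟩
    rw [hedge]; simp

/-- extension of a permutation of `Fin N` to `ℕ` -/
def ext {N : ℕ} (ρ : Fin N → Fin N) : ℕ → ℕ := fun x => if h : x < N then ρ ⟨x, h⟩ else x

lemma edge_trans (σ : Fin n × Fin r ≃ Fin (r * n)) (ρ : Equiv.Perm (Fin (r * n))) (i : Fin n) :
    edge (sv (σ.trans ρ)) i = (edge (sv σ) i).image (ext ρ) := by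
  ext x
  rw [mem_edge, Finset.mem_image]
  constructor
  · rintro ⟨j, rfl⟩
    refine ⟨σ (i, j), mem_edge.2 ⟨j, rfl⟩, ?_⟩
    simp [ext, sv]
  · rintro ⟨y, hy, rfl⟩
    obtain ⟨j, rfl⟩ := mem_edge.1 hy
    refine ⟨j, ?_⟩
    simp [ext, sv]

lemma toOM_trans (hr : 0 < r) {σ σ' : Fin n × Fin r ≃ Fin (r * n)}
    (ρ : Equiv.Perm (Fin (r * n))) (h : toOM hr σ = toOM hr σ') :
    toOM hr (σ.trans ρ) = toOM hr (σ'.trans ρ) := by
  apply Subtype.ext
  apply Finpartition.ext
  rw [toOM_parts, toOM_parts]
  have h1 : univ.image (edge (sv σ)) = univ.image (edge (sv σ')) := by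
    rw [← toOM_parts hr, ← toOM_parts hr, h]
  have key : ∀ τ : Fin n × Fin r ≃ Fin (r * n), univ.image (edge (sv (τ.trans ρ)))
      = (univ.image (edge (sv τ))).image (fun e => e.image (ext ρ)) := by
    intro τ
    rw [Finset.image_image]
    congr 1
    funext i
    exact edge_trans τ ρ i
  rw [key, key, h1]

open Classical in
lemma card_fiber_eq (hr : 0 < r) (M M' : OrdMatching r n) :
    (univ.filter (fun σ : Fin n × Fin r ≃ Fin (r * n) => toOM hr σ = M)).card
      = (univ.filter (fun σ : Fin n × Fin r ≃ Fin (r * n) => toOM hr σ = M')).card := by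
  have key : ∀ M M' : OrdMatching r n,
      (univ.filter (fun σ : Fin n × Fin r ≃ Fin (r * n) => toOM hr σ = M)).card
      ≤ (univ.filter (fun σ : Fin n × Fin r ≃ Fin (r * n) => toOM hr σ = M')).card := by
    intro M M'
    obtain ⟨σ₀, h0⟩ := toOM_surjective hr M
    obtain ⟨σ₁, h1⟩ := toOM_surjective hr M'
    apply Finset.card_le_card_of_injOn (fun σ => σ.trans (σ₀.symm.trans σ₁))
    · intro σ hσ
      simp only [Finset.coe_filter, Finset.mem_univ, true_and, Set.mem_ofPred_eq] at hσ ⊢
      have h2 := toOM_trans hr (σ₀.symm.trans σ₁) (hσ.trans h0.symm)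
      rw [h2, ← h1]
      congr 1
      ext x
      simp
    · intro σ _ σ' _ h
      simp only at h
      ext x
      have := congrArg (fun τ : Fin n × Fin r ≃ Fin (r * n) => τ x) h
      simp only [Equiv.trans_apply] at this
      have h2 := σ₁.injective this
      have h3 := σ₀.symm.injective h2
      rw [h3]
  exact le_antisymm (key _ _) (key _ _)

open Classical in
/-- The probability computed with uniformly random labellings. -/
theorem prob_eq (hr : 0 < r) (Q : OrdMatching r n → Prop) :
    prob r n Q = ((univ.filter (fun σ : Fin n × Fin r ≃ Fin (r * n) => Q (toOM hr σ))).card : ℝ)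
      / ((r * n).factorial : ℝ) := by
  have hS : Fintype.card (Fin n × Fin r ≃ Fin (r * n)) = (r * n).factorial := by
    have e : Fin n × Fin r ≃ Fin (r * n) := Fintype.equivOfCardEq (by simp [mul_comm])
    rw [Fintype.card_equiv e]
    simp [mul_comm]
  have e0 : Fin n × Fin r ≃ Fin (r * n) := Fintype.equivOfCardEq (by simp [mul_comm])
  set F := (univ.filter (fun σ : Fin n × Fin r ≃ Fin (r * n) => toOM hr σ = toOM hr e0)).card
    with hF
  have hFpos : 0 < F := by
    rw [hF, Finset.card_pos]
    exact ⟨e0, by simp⟩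
  have hcount : ∀ Q : OrdMatching r n → Prop,
      (univ.filter (fun σ : Fin n × Fin r ≃ Fin (r * n) => Q (toOM hr σ))).card
        = (univ.filter (fun M : OrdMatching r n => Q M)).card * F := by
    intro Q
    rw [Finset.card_eq_sum_card_fiberwise (f := toOM hr)
      (t := univ.filter (fun M : OrdMatching r n => Q M)) (by
        intro σ hσ
        simpa using hσ)]
    rw [Finset.sum_congr rfl (g := fun _ => F), Finset.sum_const, smul_eq_mul]
    intro M hM
    rw [hF, ← card_fiber_eq hr M (toOM hr e0)]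
    congr 1
    ext σ
    simp only [Finset.mem_filter, Finset.mem_univ, true_and] at hM ⊢
    constructor
    · exact fun h => h.2
    · intro h
      exact ⟨by rw [h]; exact hM, h⟩
  have h1 := hcount Q
  have h2 := hcount (fun _ => True)
  simp only [Finset.filter_true, Finset.card_univ] at h2
  rw [hS] at h2
  rw [prob, h1, h2]
  rw [Nat.card_eq_fintype_card, Nat.card_eq_fintype_card, Fintype.card_subtype]
  have hF' : (F : ℝ) ≠ 0 := by positivity
  push_cast
  rw [mul_div_mul_right _ _ hF']

end Pool.Agent.Helper98.OM
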