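import Pool.Agent.Helper98.OrdModel

/-!
# The first moment bound
-/

namespace Pool.Agent.Helper98.OM

open Finset

variable {r n : ℕ}

lemma pow_le_two_mul_descFactorial {m k : ℕ} (hm0 : 0 < m) (h : 2 * k ^ 2 ≤ m) :
    (m : ℝ) ^ k ≤ 2 * (m.descFactorial k : ℝ) := by
  have hkm : k ≤ m := by nlinarith [Nat.zero_le k, sq_nonneg (k : ℤ)]
  have h1 : ((m + 1 - k : ℕ) : ℝ) ^ k ≤ (m.descFactorial k : ℝ) := by
    exact_mod_cast Nat.pow_sub_le_descFactorial m k
  have h2 : ((m + 1 - k : ℕ) : ℝ) = (m : ℝ) + 1 - k := by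
    rw [Nat.cast_sub (by omega)]; push_cast; ring
  rw [h2] at h1
  have hm : (0 : ℝ) < m := by exact_mod_cast hm0
  have hk : (k : ℝ) ≤ m := by exact_mod_cast hkm
  have h3 : ((m : ℝ) - k) ^ k ≤ ((m : ℝ) + 1 - k) ^ k := by
    apply pow_le_pow_left₀ <;> linarith
  have h4 : ((m : ℝ) - k) ^ k = (m : ℝ) ^ k * (1 + (-((k : ℝ) / m))) ^ k := by
    rw [← mul_pow]; congr 1; field_simp; ring
  have h5 : (1 : ℝ) + (k : ℝ) * (-((k : ℝ) / m)) ≤ (1 + (-((k : ℝ) / m))) ^ k := by
    apply one_add_mul_le_pow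
    have : (k : ℝ) / m ≤ 1 := by rw [div_le_one hm]; exact hk
    linarith
  have h6 : (k : ℝ) * ((k : ℝ) / m) ≤ 1 / 2 := by
    rw [← mul_div_assoc, div_le_div_iff₀ hm (by norm_num)]
    have : (2 : ℝ) * (k : ℝ) ^ 2 ≤ m := by exact_mod_cast h
    nlinarith
  have h7 : (0 : ℝ) ≤ (m : ℝ) ^ k := by positivity
  have h8 : (m : ℝ) ^ k * (1 / 2) ≤ ((m : ℝ) - k) ^ k := by
    rw [h4]
    apply mul_le_mul_of_nonneg_left _ h7
    linarith
  linarith

open Classical in
/-- Transfer from uniformly random matchings to independent uniformly random points. -/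
theorem prob_le (hr : 0 < r) (m : ℕ) (hm0 : 0 < m)
    (hm : (m : ℝ) ^ (r * n) ≤ 2 * (m.descFactorial (r * n) : ℝ))
    (Q : OrdMatching r n → Prop) (Q' : (Fin n × Fin r → Fin m) → Prop) [DecidablePred Q']
    (h : ∀ σ, Q (toOM hr σ) → ∀ φ : Fin (r * n) ↪o Fin m, Q' (fun x => φ (σ x))) :
    prob r n Q ≤ 2 * ((univ.filter Q').card : ℝ) / (m : ℝ) ^ (r * n) := by
  rw [prob_eq hr]
  have h1 : (univ.filter (fun σ : Fin n × Fin r ≃ Fin (r * n) => Q (toOM hr σ))).card
      * m.choose (r * n) ≤ (univ.filter Q').card := by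
    have h2 : m.choose (r * n) = (powersetCard (r * n) (univ : Finset (Fin m))).card := by
      rw [Finset.card_powersetCard]; simp
    rw [h2, ← Finset.card_product]
    apply Finset.card_le_card_of_injOn (fun p => fun x =>
      if hA : p.2.card = r * n then p.2.orderEmbOfFin hA (p.1 x) else ⟨0, hm0⟩)
    · rintro ⟨σ, A⟩ hp
      simp only [Finset.coe_product, Finset.coe_filter, Finset.mem_univ, true_and, Set.mem_prod,
        Set.mem_ofPred_eq, Finset.mem_coe, Finset.mem_powersetCard] at hp ⊢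
      simp only [hp.2.2, dif_pos]
      exact h σ hp.1 _
    · rintro ⟨σ, A⟩ hp ⟨σ', A'⟩ hp' he
      simp only [Finset.coe_product, Finset.coe_filter, Finset.mem_univ, true_and, Set.mem_prod,
        Set.mem_ofPred_eq, Finset.mem_coe, Finset.mem_powersetCard] at hp hp'
      simp only [hp.2.2, hp'.2.2, dif_pos] at he
      have hA : ∀ (σ : Fin n × Fin r ≃ Fin (r * n)) (A : Finset (Fin m)) (hA : A.card = r * n),
          univ.image (fun x => A.orderEmbOfFin hA (σ x)) = A := by
        intro σ A hA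
        ext y
        simp only [Finset.mem_image, Finset.mem_univ, true_and]
        constructor
        · rintro ⟨x, rfl⟩; exact Finset.orderEmbOfFin_mem A hA _
        · intro hy
          have : y ∈ Set.range (A.orderEmbOfFin hA) := by
            rw [Finset.range_orderEmbOfFin]; exact hy
          obtain ⟨i, rfl⟩ := this
          exact ⟨σ.symm i, by simp⟩
      have hAA : A = A' := by
        rw [← hA σ A hp.2.2, ← hA σ' A' hp'.2.2, he]
      subst hAA
      congr 1
      ext x
      have := congrFun he x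
      rw [(A.orderEmbOfFin hp.2.2).injective this]
  have h3 : ((univ.filter (fun σ : Fin n × Fin r ≃ Fin (r * n) => Q (toOM hr σ))).card : ℝ)
      * (m.choose (r * n) : ℝ) ≤ ((univ.filter Q').card : ℝ) := by exact_mod_cast h1
  have h4 : (m.descFactorial (r * n) : ℝ) = ((r * n).factorial : ℝ) * (m.choose (r * n) : ℝ) := by
    exact_mod_cast Nat.descFactorial_eq_factorial_mul_choose m (r * n)
  have h5 : (0 : ℝ) < ((r * n).factorial : ℝ) := by positivity
  have h6 : (0 : ℝ) < (m : ℝ) ^ (r * n) := by positivity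
  rw [div_le_div_iff₀ h5 h6]
  have h7 : (0 : ℝ) ≤ ((univ.filter (fun σ : Fin n × Fin r ≃ Fin (r * n) =>
      Q (toOM hr σ))).card : ℝ) := by positivity
  calc _ ≤ ((univ.filter (fun σ : Fin n × Fin r ≃ Fin (r * n) => Q (toOM hr σ))).card : ℝ)
        * (2 * (m.descFactorial (r * n) : ℝ)) := mul_le_mul_of_nonneg_left hm h7
    _ = 2 * (((univ.filter (fun σ : Fin n × Fin r ≃ Fin (r * n) => Q (toOM hr σ))).card : ℝ)
        * (m.choose (r * n) : ℝ)) * ((r * n).factorial : ℝ) := by rw [h4]; ring
    _ ≤ _ := by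
      apply mul_le_mul_of_nonneg_right _ h5.le
      linarith

/-- All pairs of edges of the labelled family form patterns in `Pt`. -/
def Good (Pt : Set (List Bool)) {K : ℕ} (ω : Fin K × Fin r → ℕ) : Prop :=
  Function.Injective ω ∧ ∀ i i', i ≠ i' → pattern (edge ω i) (edge ω i') ∈ Pt

/-- coercion of values -/
def cst {n r m : ℕ} (ω : Fin n × Fin r → Fin m) : Fin n × Fin r → ℕ := fun x => (ω x : ℕ)

lemma pattern_edge_comp {K N m : ℕ} (τ : Fin K × Fin r → Fin N) (φ : Fin N ↪o Fin m)
    (i i' : Fin K) : pattern (edge (cst (fun x => φ (τ x))) i) (edge (cst (fun x => φ (τ x))) i')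
      = pattern (edge (cst τ) i) (edge (cst τ) i') := by
  set ψ : ℕ → ℕ := fun x => if h : x < N then (φ ⟨x, h⟩ : ℕ) else x with hψ
  have key : ∀ i, edge (cst (fun x => φ (τ x))) i = (edge (cst τ) i).image ψ := by
    intro i
    ext x
    rw [mem_edge, Finset.mem_image]
    constructor
    · rintro ⟨j, rfl⟩
      exact ⟨τ (i, j), mem_edge.2 ⟨j, rfl⟩, by simp [hψ, cst]⟩
    · rintro ⟨y, hy, rfl⟩
      obtain ⟨j, rfl⟩ := mem_edge.1 hy
      exact ⟨j, by simp [hψ, cst]⟩
  rw [key, key]
  apply pattern_image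
  have hlt : ∀ x ∈ (edge (cst τ) i ∪ edge (cst τ) i' : Finset ℕ), x < N := by
    intro x hx
    rcases Finset.mem_union.1 hx with h | h
    · obtain ⟨j, rfl⟩ := mem_edge.1 h; exact (τ (i, j)).2
    · obtain ⟨j, rfl⟩ := mem_edge.1 h; exact (τ (i', j)).2
  intro x hx y hy hxy
  have h1 := hlt x hx
  have h2 := hlt y hy
  simp only [hψ, dif_pos h1, dif_pos h2]
  exact φ.strictMono (show (⟨x, h1⟩ : Fin N) < ⟨y, h2⟩ from hxy)

lemma good_comp {Pt : Set (List Bool)} {K N m : ℕ} (τ : Fin K × Fin r → Fin N)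
    (φ : Fin N ↪o Fin m) : Good Pt (cst (fun x => φ (τ x))) ↔ Good Pt (cst τ) := by
  unfold Good
  apply and_congr
  · constructor
    · intro h x y hxy
      apply h
      have : τ x = τ y := Fin.ext hxy
      simp [cst, this]
    · intro h x y hxy
      apply h
      have : φ (τ x) = φ (τ y) := Fin.ext hxy
      simp [cst, φ.injective this]
  · constructor
    · intro h i i' hne
      rw [← pattern_edge_comp τ φ]; exact h i i' hne
    · intro h i i' hne
      rw [pattern_edge_comp τ φ]; exact h i i' hne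

open Classical in
lemma good_count1 (Pt : Set (List Bool)) (K : ℕ) {m : ℕ} (hm : 0 < m) :
    (univ.filter (fun ω : Fin K × Fin r → Fin m => Good Pt (cst ω))).card ≤
      m.choose (r * K) *
        (univ.filter (fun τ : Fin K × Fin r → Fin (r * K) => Good Pt (cst τ))).card := by
  have h2 : m.choose (r * K) = (powersetCard (r * K) (univ : Finset (Fin m))).card := by
    rw [Finset.card_powersetCard]; simp
  rw [h2, ← Finset.card_product]
  have hsub : (univ.filter (fun ω : Fin K × Fin r → Fin m => Good Pt (cst ω))) ⊆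
      ((powersetCard (r * K) (univ : Finset (Fin m))) ×ˢ
        (univ.filter (fun τ : Fin K × Fin r → Fin (r * K) => Good Pt (cst τ)))).image
        (fun p => fun x => if hA : p.1.card = r * K then p.1.orderEmbOfFin hA (p.2 x)
          else ⟨0, hm⟩) := by
    intro ω hω
    simp only [Finset.mem_filter, Finset.mem_univ, true_and] at hω
    have hinj : Function.Injective ω := fun x y h => hω.1 (by simp [cst, h])
    set A : Finset (Fin m) := univ.image ω with hA
    have hAc : A.card = r * K := by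
      rw [hA, Finset.card_image_of_injective _ hinj]
      simp [mul_comm]
    have hmem : ∀ x, ω x ∈ A := fun x => Finset.mem_image_of_mem _ (Finset.mem_univ _)
    set τ : Fin K × Fin r → Fin (r * K) := fun x => (A.orderIsoOfFin hAc).symm ⟨ω x, hmem x⟩
      with hτ
    have hφ : ∀ x, A.orderEmbOfFin hAc (τ x) = ω x := by
      intro x
      rw [hτ, ← Finset.coe_orderIsoOfFin_apply]
      simp
    rw [Finset.mem_image]
    refine ⟨(A, τ), ?_, ?_⟩
    · rw [Finset.mem_product]
      refine ⟨?_, ?_⟩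
      · rw [Finset.mem_powersetCard]
        exact ⟨Finset.subset_univ _, hAc⟩
      · simp only [Finset.mem_filter, Finset.mem_univ, true_and]
        rw [← good_comp τ (A.orderEmbOfFin hAc)]
        have : (fun x => A.orderEmbOfFin hAc (τ x)) = ω := funext hφ
        rw [this]; exact hω
    · funext x
      simp only [hAc, dif_pos]
      exact hφ x
  exact (Finset.card_le_card hsub).trans Finset.card_image_le

lemma edges_mem_cliques {Pt : Set (List Bool)} {K m : ℕ} {τ : Fin K × Fin r → Fin m}
    (h : Good Pt (cst τ)) : univ.image (edge (cst τ)) ∈ cliques r m Pt := by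
  rw [mem_cliques]
  refine ⟨?_, ?_, ?_⟩
  · intro e he
    obtain ⟨i, -, rfl⟩ := Finset.mem_image.1 he
    refine ⟨?_, card_edge h.1 i⟩
    intro x hx
    obtain ⟨j, rfl⟩ := mem_edge.1 hx
    exact Finset.mem_range.2 (τ (i, j)).2
  · intro e he f hf hne
    obtain ⟨i, -, rfl⟩ := Finset.mem_image.1 he
    obtain ⟨i', -, rfl⟩ := Finset.mem_image.1 hf
    exact edge_disjoint h.1 (fun h' => hne (by rw [h']))
  · intro e he f hf hne
    obtain ⟨i, -, rfl⟩ := Finset.mem_image.1 he
    obtain ⟨i', -, rfl⟩ := Finset.mem_image.1 hf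
    exact h.2 i i' (fun h' => hne (by rw [h']))

open Classical in
lemma good_count2 (Pt : Set (List Bool)) (K m : ℕ) :
    (univ.filter (fun τ : Fin K × Fin r → Fin m => Good Pt (cst τ))).card ≤
      (cliques r m Pt).card * (K ^ K * r ^ (r * K)) := by
  set S := (cliques r m Pt).filter (fun C => C.card ≤ K) with hS
  have hsub : (univ.filter (fun τ : Fin K × Fin r → Fin m => Good Pt (cst τ))) ⊆
      S.biUnion (fun C => (Fintype.piFinset (fun _ : Fin K => C)).biUnion (fun E =>
        univ.filter (fun τ : Fin K × Fin r → Fin m => ∀ x, (τ x : ℕ) ∈ E x.1))) := by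
    intro τ hτ
    simp only [Finset.mem_filter, Finset.mem_univ, true_and] at hτ
    simp only [Finset.mem_biUnion, Fintype.mem_piFinset, Finset.mem_filter, Finset.mem_univ,
      true_and]
    refine ⟨univ.image (edge (cst τ)), ?_, edge (cst τ), ?_, ?_⟩
    · rw [hS, Finset.mem_filter]
      refine ⟨edges_mem_cliques hτ, ?_⟩
      refine Finset.card_image_le.trans ?_
      simp
    · intro i; exact Finset.mem_image_of_mem _ (Finset.mem_univ _)
    · intro x
      exact mem_edge.2 ⟨x.2, rfl⟩
  refine (Finset.card_le_card hsub).trans ?_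
  have h1 : ∀ C ∈ S, ((Fintype.piFinset (fun _ : Fin K => C)).biUnion (fun E =>
        univ.filter (fun τ : Fin K × Fin r → Fin m => ∀ x, (τ x : ℕ) ∈ E x.1))).card
      ≤ K ^ K * r ^ (r * K) := by
    intro C hC
    rw [hS, Finset.mem_filter, mem_cliques] at hC
    refine (Finset.card_biUnion_le_card_mul _ _ (r ^ (r * K)) ?_).trans ?_
    · intro E hE
      rw [Fintype.mem_piFinset] at hE
      calc _ ≤ (Fintype.piFinset (fun x : Fin K × Fin r => E x.1)).card := by
            apply Finset.card_le_card_of_injOn (fun τ => cst τ)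
            · intro τ hτ
              simp only [Finset.coe_filter, Finset.mem_univ, true_and, Set.mem_ofPred_eq] at hτ
              rw [Finset.mem_coe, Fintype.mem_piFinset]
              exact hτ
            · intro τ _ τ' _ h
              funext x
              exact Fin.ext (congrFun h x)
        _ = r ^ (r * K) := by
            rw [Fintype.card_piFinset, Finset.prod_congr rfl (g := fun _ => r)
              (fun x _ => (hC.1.1 _ (hE x.1)).2)]
            simp [mul_comm]
    · rw [Fintype.card_piFinset]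
      simp only [Finset.prod_const, Finset.card_univ, Fintype.card_fin]
      exact Nat.mul_le_mul_right _ (Nat.pow_le_pow_left hC.2 K)
  refine (Finset.card_biUnion_le_card_mul _ _ _ h1).trans ?_
  exact Nat.mul_le_mul_right _ (Finset.card_le_card (Finset.filter_subset _ _))

open Classical in
lemma restrict_count {K m : ℕ} (e : Fin K → Fin n) (he : Function.Injective e)
    (P : (Fin K × Fin r → Fin m) → Prop) :
    (univ.filter (fun ω : Fin n × Fin r → Fin m => P (fun x => ω (e x.1, x.2)))).card ≤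
      (univ.filter P).card * m ^ ((n - K) * r) := by
  have h1 : m ^ ((n - K) * r) =
      (univ : Finset ({i : Fin n // i ∉ Set.range e} × Fin r → Fin m)).card := by
    rw [Finset.card_univ, Fintype.card_fun, Fintype.card_prod, Fintype.card_fin, Fintype.card_fin]
    congr 2
    rw [Fintype.card_subtype_compl]
    simp only [Fintype.card_fin]
    congr 1
    have : Fintype.card {x // x ∈ Set.range e} = Fintype.card (Fin K) :=
      Set.card_range_of_injective he
    rw [this, Fintype.card_fin]
  rw [h1, ← Finset.card_product]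
  apply Finset.card_le_card_of_injOn (fun ω => ((fun x => ω (e x.1, x.2)),
    (fun y : {i : Fin n // i ∉ Set.range e} × Fin r => ω (y.1.1, y.2))))
  · intro ω hω
    simp only [Finset.coe_filter, Finset.mem_univ, true_and, Set.mem_ofPred_eq] at hω
    rw [Finset.mem_coe, Finset.mem_product]
    refine ⟨?_, Finset.mem_univ _⟩
    simp only [Finset.mem_filter, Finset.mem_univ, true_and]
    exact hω
  · intro ω _ ω' _ h
    funext x
    obtain ⟨i, j⟩ := x
    have h2 := (Prod.mk.inj h).1
    have h3 := (Prod.mk.inj h).2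
    by_cases hi : i ∈ Set.range e
    · obtain ⟨k, rfl⟩ := hi
      exact congrFun h2 (k, j)
    · exact congrFun h3 (⟨i, hi⟩, j)

open Classical in
/-- First moment bound, in terms of the number of cliques. -/
theorem first_moment (hr : 0 < r) (Pt : Set (List Bool)) (n K : ℕ) (hK : K ≤ n) :
    prob r n (fun M => K ≤ maxClique Pt M) ≤
      2 * ((n.choose K : ℝ) * ((cliques r (r * K) Pt).card * (K ^ K * r ^ (r * K)) : ℕ)
        / ((r * K).factorial : ℝ)) := by
  set m := 2 * (r * n) ^ 2 + 1 with hm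
  have hm0 : 0 < m := by omega
  have hdesc : (m : ℝ) ^ (r * n) ≤ 2 * (m.descFactorial (r * n) : ℝ) :=
    pow_le_two_mul_descFactorial hm0 (by omega)
  set Q' : (Fin n × Fin r → Fin m) → Prop := fun ω =>
    ∃ I : Finset (Fin n), ∃ hI : I.card = K,
      Good Pt (cst (fun x : Fin K × Fin r => ω (I.orderEmbOfFin hI x.1, x.2))) with hQ'
  have h1 := prob_le (n := n) hr m hm0 hdesc (fun M => K ≤ maxClique Pt M) Q' (by
    intro σ hσ φ
    rw [maxClique] at hσ
    obtain ⟨C, hC, hCc⟩ : ∃ C ∈ (toOM hr σ).1.parts.powerset.filter (fun C => IsClique Pt C),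
        K ≤ C.card := by
      rcases Nat.eq_zero_or_pos K with hK0 | hK0
      · refine ⟨∅, ?_, by omega⟩
        rw [Finset.mem_filter]
        exact ⟨Finset.empty_mem_powerset _, fun e he => absurd he (Finset.notMem_empty _)⟩
      · exact (Finset.le_sup_iff hK0).1 hσ
    rw [Finset.mem_filter, Finset.mem_powerset, toOM_parts] at hC
    set J : Finset (Fin n) := univ.filter (fun i => edge (sv σ) i ∈ C) with hJ
    have hJc : K ≤ J.card := by
      refine hCc.trans ?_
      have : C ⊆ J.image (edge (sv σ)) := by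
        intro e he
        obtain ⟨i, -, rfl⟩ := Finset.mem_image.1 (hC.1 he)
        refine Finset.mem_image_of_mem _ ?_
        rw [hJ, Finset.mem_filter]
        exact ⟨Finset.mem_univ _, he⟩
      exact (Finset.card_le_card this).trans Finset.card_image_le
    obtain ⟨I, hIJ, hI⟩ := Finset.exists_subset_card_eq hJc
    refine ⟨I, hI, ?_⟩
    have hg : Good Pt (cst (fun x : Fin K × Fin r => σ (I.orderEmbOfFin hI x.1, x.2))) := by
      refine ⟨?_, ?_⟩
      · intro x y hxy
        have h1 := σ.injective (Fin.ext hxy)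
        have h2 := (Prod.mk.inj h1).1
        have h3 := (Prod.mk.inj h1).2
        exact Prod.ext ((I.orderEmbOfFin hI).injective h2) h3
      · intro i i' hne
        have e1 : ∀ i, edge (cst (fun x : Fin K × Fin r => σ (I.orderEmbOfFin hI x.1, x.2))) i
            = edge (sv σ) (I.orderEmbOfFin hI i) := fun i => rfl
        rw [e1, e1]
        have hmem : ∀ i, edge (sv σ) (I.orderEmbOfFin hI i) ∈ C := by
          intro i
          have := hIJ (Finset.orderEmbOfFin_mem I hI i)
          rw [hJ, Finset.mem_filter] at this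
          exact this.2
        apply hC.2 _ (hmem _) _ (hmem _)
        intro h
        exact hne ((I.orderEmbOfFin hI).injective (edge_injective hr (sv_injective σ) h))
    exact (good_comp _ φ).2 hg)
  have h2 : (univ.filter Q').card ≤ n.choose K * ((m.choose (r * K) *
      ((cliques r (r * K) Pt).card * (K ^ K * r ^ (r * K)))) * m ^ ((n - K) * r)) := by
    have hsub : univ.filter Q' ⊆ (powersetCard K (univ : Finset (Fin n))).biUnion (fun I =>
        univ.filter (fun ω : Fin n × Fin r → Fin m => ∃ hI : I.card = K,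
          Good Pt (cst (fun x : Fin K × Fin r => ω (I.orderEmbOfFin hI x.1, x.2))))) := by
      intro ω hω
      simp only [Finset.mem_filter, Finset.mem_univ, true_and, hQ'] at hω
      obtain ⟨I, hI, hg⟩ := hω
      rw [Finset.mem_biUnion]
      refine ⟨I, ?_, ?_⟩
      · rw [Finset.mem_powersetCard]; exact ⟨Finset.subset_univ _, hI⟩
      · simp only [Finset.mem_filter, Finset.mem_univ, true_and]
        exact ⟨hI, hg⟩
    refine (Finset.card_le_card hsub).trans ?_
    refine (Finset.card_biUnion_le_card_mul _ _ ((m.choose (r * K) *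
      ((cliques r (r * K) Pt).card * (K ^ K * r ^ (r * K)))) * m ^ ((n - K) * r)) ?_).trans
      (le_of_eq ?_)
    · intro I hI
      rw [Finset.mem_powersetCard] at hI
      have h3 := restrict_count (r := r) (m := m) (I.orderEmbOfFin hI.2)
        (I.orderEmbOfFin hI.2).injective (fun ω => Good Pt (cst ω))
      refine le_trans (Finset.card_le_card ?_) (h3.trans (Nat.mul_le_mul_right _
        ((good_count1 Pt K hm0).trans (Nat.mul_le_mul_left _ (good_count2 Pt K _)))))
      intro ω hω
      simp only [Finset.mem_filter, Finset.mem_univ, true_and] at hω ⊢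
      exact hω.choose_spec
    · rw [Finset.card_powersetCard]; simp
  refine h1.trans ?_
  rw [mul_div_assoc]
  apply mul_le_mul_of_nonneg_left _ (by norm_num)
  have hm0' : (0 : ℝ) < (m : ℝ) := by exact_mod_cast hm0
  rw [div_le_div_iff₀ (by positivity) (by positivity)]
  have h3 : ((univ.filter Q').card : ℝ) ≤ (n.choose K : ℝ) * (((m.choose (r * K) : ℝ) *
      ((cliques r (r * K) Pt).card * (K ^ K * r ^ (r * K)) : ℕ)) * (m : ℝ) ^ ((n - K) * r)) := by
    exact_mod_cast h2
  have h4 : (m.choose (r * K) : ℝ) ≤ (m : ℝ) ^ (r * K) / ((r * K).factorial : ℝ) :=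
    Nat.choose_le_pow_div _ _
  have h5 : (m : ℝ) ^ (r * n) = (m : ℝ) ^ (r * K) * (m : ℝ) ^ ((n - K) * r) := by
    rw [← pow_add]; congr 1
    have : r * n = r * K + r * (n - K) := by
      rw [← Nat.mul_add]; congr 1; omega
    rw [this, Nat.mul_comm (n - K) r]
  have hf : (0 : ℝ) < ((r * K).factorial : ℝ) := by positivity
  rw [le_div_iff₀ hf] at h4
  calc ((univ.filter Q').card : ℝ) * ((r * K).factorial : ℝ)
      ≤ ((n.choose K : ℝ) * (((m.choose (r * K) : ℝ) *
      ((cliques r (r * K) Pt).card * (K ^ K * r ^ (r * K)) : ℕ)) * (m : ℝ) ^ ((n - K) * r)))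
        * ((r * K).factorial : ℝ) := mul_le_mul_of_nonneg_right h3 hf.le
    _ = ((n.choose K : ℝ) * ((cliques r (r * K) Pt).card * (K ^ K * r ^ (r * K)) : ℕ))
        * ((m.choose (r * K) : ℝ) * ((r * K).factorial : ℝ)) * (m : ℝ) ^ ((n - K) * r) := by ring
    _ ≤ ((n.choose K : ℝ) * ((cliques r (r * K) Pt).card * (K ^ K * r ^ (r * K)) : ℕ))
        * (m : ℝ) ^ (r * K) * (m : ℝ) ^ ((n - K) * r) := by gcongr
    _ = _ := by rw [h5]; ring

lemma factorial_pow_le (r K : ℕ) : K.factorial ^ r ≤ (r * K).factorial := by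
  induction r with
  | zero => simp
  | succ r ih =>
    rw [pow_succ, Nat.succ_mul]
    calc K.factorial ^ r * K.factorial ≤ (r * K).factorial * K.factorial :=
          Nat.mul_le_mul_right _ ih
      _ ≤ (r * K + K).factorial :=
          Nat.le_of_dvd (Nat.factorial_pos _) (Nat.factorial_mul_factorial_dvd_factorial_add _ _)

lemma pow_self_le (K : ℕ) : (K : ℝ) ^ K ≤ 3 ^ K * (K.factorial : ℝ) := by
  have h1 := Real.pow_div_factorial_le_exp (K : ℝ) (by positivity) K
  have h2 : Real.exp (K : ℝ) ≤ 3 ^ K := by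
    rw [← mul_one (K : ℝ), Real.exp_nat_mul]
    apply pow_le_pow_left₀ (Real.exp_pos _).le
    exact Real.exp_one_lt_three.le
  rw [div_le_iff₀ (by positivity)] at h1
  exact h1.trans (mul_le_mul_of_nonneg_right h2 (by positivity))

/-- **Upper tail**: for some constant `D`, `P(z ≥ K) ≤ 2 (D n / K^r)^K`. -/
theorem upper_tail (hr : 0 < r) (Pt : Set (List Bool))
    (hPt : ∀ X ∈ Pt, ∀ Y ∈ Pt, X ≠ Y → ¬ Harmonious X Y) :
    ∃ D : ℝ, 0 < D ∧ ∀ n K : ℕ, 0 < K → K ≤ n →
      prob r n (fun M => K ≤ maxClique Pt M) ≤ 2 * (D * n / (K : ℝ) ^ r) ^ K := by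
  obtain ⟨A, hA, hA'⟩ := card_cliques_le hr hPt
  refine ⟨(A : ℝ) ^ r * (r : ℝ) ^ r * 3 * 3 ^ r, by positivity, fun n K hK hKn => ?_⟩
  refine (first_moment hr Pt n K hKn).trans ?_
  apply mul_le_mul_of_nonneg_left _ (by norm_num)
  have hKf : (0 : ℝ) < (K.factorial : ℝ) := by positivity
  have hK' : (0 : ℝ) < (K : ℝ) := by exact_mod_cast hK
  have h1 : ((cliques r (r * K) Pt).card : ℝ) ≤ (A : ℝ) ^ (r * K) := by exact_mod_cast hA' (r * K)
  have h2 : (n.choose K : ℝ) ≤ (n : ℝ) ^ K / (K.factorial : ℝ) := Nat.choose_le_pow_div _ _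
  have h3 : ((K.factorial : ℝ)) ^ r ≤ ((r * K).factorial : ℝ) := by
    exact_mod_cast factorial_pow_le r K
  have h4 := pow_self_le K
  have h5 : (1 : ℝ) / ((r * K).factorial : ℝ) ≤ 1 / (K.factorial : ℝ) ^ r := by
    apply one_div_le_one_div_of_le (by positivity) h3
  have h6 : (1 : ℝ) / (K.factorial : ℝ) ≤ 3 ^ K / (K : ℝ) ^ K := by
    rw [div_le_div_iff₀ hKf (by positivity), one_mul]
    exact h4
  have h7 : (1 : ℝ) / (K.factorial : ℝ) ^ r ≤ (3 ^ K / (K : ℝ) ^ K) ^ r := by
    rw [← one_div_pow]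
    exact pow_le_pow_left₀ (by positivity) h6 r
  calc (n.choose K : ℝ) * ((cliques r (r * K) Pt).card * (K ^ K * r ^ (r * K)) : ℕ)
        / ((r * K).factorial : ℝ)
      = (n.choose K : ℝ) * (((cliques r (r * K) Pt).card : ℝ) * ((K : ℝ) ^ K * (r : ℝ) ^ (r * K)))
        * (1 / ((r * K).factorial : ℝ)) := by push_cast; ring
    _ ≤ ((n : ℝ) ^ K / (K.factorial : ℝ)) * ((A : ℝ) ^ (r * K) * ((K : ℝ) ^ K * (r : ℝ) ^ (r * K)))
        * ((3 ^ K / (K : ℝ) ^ K) ^ r) := by
        gcongr
        exact h5.trans h7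
    _ = (n : ℝ) ^ K * (A : ℝ) ^ (r * K) * (r : ℝ) ^ (r * K) * ((K : ℝ) ^ K / (K.factorial : ℝ))
        * ((3 ^ K / (K : ℝ) ^ K) ^ r) := by ring
    _ ≤ (n : ℝ) ^ K * (A : ℝ) ^ (r * K) * (r : ℝ) ^ (r * K) * 3 ^ K
        * ((3 ^ K / (K : ℝ) ^ K) ^ r) := by
        gcongr
        rw [div_le_iff₀ hKf]; exact h4
    _ = _ := by
        rw [div_pow, div_pow, mul_pow, mul_pow, mul_pow, mul_pow, ← pow_mul, ← pow_mul, ← pow_mul,
          ← pow_mul, ← pow_mul, ← pow_mul, mul_comm K r]
        ring

end Pool.Agent.Helper98.OM
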