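import Pool.Agent.Helper98.OrdDefs

/-!
# Words over `{A, B}` (`A = true`, `B = false`) and patterns of pairs of sets
-/

namespace Pool.Agent.Helper98.OM

open Finset

/-- In the word `w`, the `i`-th `A` occurs before the `j`-th `B` (counting from `0`). -/
def before : List Bool → ℕ → ℕ → Prop
  | [], _, _ => False
  | true :: _, 0, _ => True
  | true :: w, i + 1, j => before w i j
  | false :: _, _, 0 => False
  | false :: w, i, j + 1 => before w i j

lemma before_true_zero (w : List Bool) (j : ℕ) : before (true :: w) 0 j := by
  simp [before]

lemma before_true_succ (w : List Bool) (i j : ℕ) :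
    before (true :: w) (i + 1) j ↔ before w i j := by
  simp [before]

lemma before_false_zero (w : List Bool) (i : ℕ) : ¬ before (false :: w) i 0 := by
  cases i <;> simp [before]

lemma before_false_succ (w : List Bool) (i j : ℕ) :
    before (false :: w) i (j + 1) ↔ before w i j := by
  cases i <;> simp [before]

lemma before_mono {w : List Bool} : ∀ {i j i' j' : ℕ}, before w i j → i' ≤ i → j ≤ j' →
    before w i' j' := by
  induction w with
  | nil => intro i j i' j' h; exact h.elim
  | cons c w ih =>
    intro i j i' j' h hi hj
    cases c with
    | true =>
      cases i' with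
      | zero => exact before_true_zero _ _
      | succ i' =>
        obtain ⟨i, rfl⟩ : ∃ k, i = k + 1 := ⟨i - 1, by omega⟩
        rw [before_true_succ] at h ⊢
        exact ih h (by omega) hj
    | false =>
      cases j with
      | zero => exact absurd h (before_false_zero _ _)
      | succ j =>
        obtain ⟨j', rfl⟩ : ∃ k, j' = k + 1 := ⟨j' - 1, by omega⟩
        rw [before_false_succ] at h ⊢
        exact ih h hi (by omega)

lemma before_replicate_true (w : List Bool) (t i j : ℕ) :
    before (List.replicate t true ++ w) i j ↔ i < t ∨ (t ≤ i ∧ before w (i - t) j) := by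
  induction t generalizing i with
  | zero => simp
  | succ t ih =>
    rw [List.replicate_succ, List.cons_append]
    cases i with
    | zero => simp [before_true_zero]
    | succ i =>
      rw [before_true_succ, ih]
      simp

lemma before_replicate_false (w : List Bool) (t i j : ℕ) :
    before (List.replicate t false ++ w) i j ↔ t ≤ j ∧ before w i (j - t) := by
  induction t generalizing j with
  | zero => simp
  | succ t ih =>
    rw [List.replicate_succ, List.cons_append]
    cases j with
    | zero => simp [before_false_zero]
    | succ j =>
      rw [before_false_succ, ih]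
      simp

/-- A word with `r` letters `A` and `r` letters `B` is determined by the relation `before`. -/
lemma before_ext : ∀ {w w' : List Bool} {r s : ℕ}, w.count true = r → w.count false = s →
    w'.count true = r → w'.count false = s →
    (∀ i j, i < r → j < s → (before w i j ↔ before w' i j)) → w = w' := by
  intro w
  induction w with
  | nil =>
    intro w' r s h1 h2 h3 h4 _
    simp only [List.count_nil] at h1 h2
    subst h1; subst h2
    cases w' with
    | nil => rfl
    | cons c w' => cases c <;> simp at h3 h4
  | cons c w ih =>
    intro w' r s h1 h2 h3 h4 h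
    cases w' with
    | nil =>
      simp only [List.count_nil] at h3 h4
      subst h3; subst h4
      cases c <;> simp at h1 h2
    | cons c' w' =>
      cases c with
      | true =>
        cases c' with
        | true =>
          simp only [List.count_cons_self] at h1 h3
          have h2' : w.count false = s := by simpa using h2
          have h4' : w'.count false = s := by simpa using h4
          rw [ih (r := r - 1) (s := s) (by omega) h2' (by omega) h4' ?_]
          intro i j hi hj
          have := h (i + 1) j (by omega) hj
          rwa [before_true_succ, before_true_succ] at this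
        | false =>
          exfalso
          simp only [List.count_cons_self] at h1 h4
          have := h 0 0 (by omega) (by omega)
          exact before_false_zero _ _ (this.1 (before_true_zero _ _))
      | false =>
        cases c' with
        | true =>
          exfalso
          simp only [List.count_cons_self] at h2 h3
          have := h 0 0 (by omega) (by omega)
          exact before_false_zero _ _ (this.2 (before_true_zero _ _))
        | false =>
          simp only [List.count_cons_self] at h2 h4
          have h1' : w.count true = r := by simpa using h1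
          have h3' : w'.count true = r := by simpa using h3
          rw [ih (r := r) (s := s - 1) h1' (by omega) h3' (by omega) ?_]
          intro i j hi hj
          have := h i (j + 1) hi (by omega)
          rwa [before_false_succ, before_false_succ] at this

/-! ### The structure of words satisfying the transitivity conditions -/

/-- The transitivity conditions satisfied by `r`-patterns `X` of `(e, f)`, `Y` of `(e, g)` and `Z`
of `(f, g)`. -/
def Tri (r : ℕ) (X Y Z : List Bool) : Prop :=
  ∀ i j l, i < r → j < r → l < r →
    (before X i j → before Z j l → before Y i l) ∧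
      (¬ before X i j → ¬ before Z j l → ¬ before Y i l)

/-- `X` is cut between positions `i` and `i + 1`. -/
def Cut (X : List Bool) (i : ℕ) : Prop := before X i (i + 1) ∧ ¬ before X (i + 1) i

@[simp] lemma count_false_replicate_true (t : ℕ) : (List.replicate t true).count false = 0 := by
  rw [List.count_replicate]; simp

@[simp] lemma count_true_replicate_false (t : ℕ) : (List.replicate t false).count true = 0 := by
  rw [List.count_replicate]; simp

lemma exists_run (c : Bool) (w : List Bool) : ∃ t w', w = List.replicate t c ++ w' ∧
    (w' = [] ∨ ∃ w'', w' = (!c) :: w'') := by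
  induction w with
  | nil => exact ⟨0, [], rfl, Or.inl rfl⟩
  | cons d w ih =>
    by_cases h : d = c
    · obtain ⟨t, w', h1, h2⟩ := ih
      refine ⟨t + 1, w', ?_, h2⟩
      rw [List.replicate_succ, List.cons_append, ← h1, h]
    · refine ⟨0, d :: w, rfl, Or.inr ⟨w, ?_⟩⟩
      congr 1
      cases c <;> cases d <;> simp_all

lemma structure_lemma {r : ℕ} {X : List Bool} (hr : 1 ≤ r) (h1 : X.count true = r)
    (h2 : X.count false = r) (hX : Tri r X X X) :
    ∃ (c : Bool) (t : ℕ) (X' : List Bool), 1 ≤ t ∧ t ≤ r ∧
      X = List.replicate t c ++ List.replicate t (!c) ++ X' ∧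
      X'.count true = r - t ∧ X'.count false = r - t ∧
      (∀ i j, before X (i + t) (j + t) ↔ before X' i j) ∧
      (∀ i, i + 1 < t → ¬ Cut X i) ∧ (t < r → Cut X (t - 1)) := by
  obtain ⟨c, X0, rfl⟩ : ∃ c X0, X = c :: X0 := by
    cases X with
    | nil => simp at h1; omega
    | cons c X0 => exact ⟨c, X0, rfl⟩
  set X := c :: X0 with hXdef
  obtain ⟨t, X1, hX1, hX1'⟩ := exists_run c X
  have ht : 1 ≤ t := by
    rcases Nat.eq_zero_or_pos t with h | h
    · subst h
      simp only [List.replicate_zero, List.nil_append] at hX1
      rcases hX1' with h | ⟨w'', h⟩
      · rw [h] at hX1; simp [hXdef] at hX1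
      · rw [h] at hX1
        have := (List.cons.inj hX1).1
        cases c <;> simp at this
    · exact h
  cases c with
  | true =>
    simp only [Bool.not_true] at hX1' ⊢
    have hc1 : X.count true = t + X1.count true := by rw [hX1]; simp
    have hc2 : X.count false = X1.count false := by rw [hX1]; simp
    obtain ⟨s, X2, hX2, hX2'⟩ := exists_run false X1
    simp only [Bool.not_false] at hX2'
    have hd1 : X1.count true = X2.count true := by rw [hX2]; simp
    have hd2 : X1.count false = s + X2.count false := by rw [hX2]; simp
    have hb : ∀ i j, before X i j ↔ i < t ∨ (t ≤ i ∧ s ≤ j ∧ before X2 (i - t) (j - s)) := by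
      intro i j
      rw [hX1, before_replicate_true, hX2, before_replicate_false]
    have hs1 : 1 ≤ s := by
      rcases hX1' with h | ⟨w'', h⟩
      · rw [h] at hc2; simp at hc2; omega
      · rcases Nat.eq_zero_or_pos s with h' | h'
        · subst h'
          simp only [List.replicate_zero, List.nil_append] at hX2
          rcases hX2' with h'' | ⟨w3, h''⟩
          · rw [hX2, h''] at h; simp at h
          · rw [hX2, h''] at h; simp at h
        · exact h'
    have hst : t ≤ s := by
      by_contra hcon
      push Not at hcon
      rcases hX2' with h' | ⟨w3, h'⟩
      · rw [h'] at hd2; simp at hd2; omega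
      · have h3 : X2.count true ≥ 1 := by rw [h']; simp
        have e1 : before X t s := by
          rw [hb]; right
          refine ⟨le_refl _, le_refl _, ?_⟩
          rw [h']; simp [before]
        have e2 : before X s 0 := by rw [hb]; left; exact hcon
        have e3 : ¬ before X t 0 := by
          rw [hb]; push Not
          exact ⟨le_refl _, fun _ h => by omega⟩
        exact e3 ((hX t s 0 (by omega) (by omega) (by omega)).1 e1 e2)
    have hsplit : List.replicate s false = List.replicate t false ++ List.replicate (s - t) false := by
      rw [← List.replicate_add]; congr 1; omega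
    refine ⟨true, t, List.replicate (s - t) false ++ X2, ht, by omega, ?_, ?_, ?_, ?_, ?_, ?_⟩
    · rw [hX1, hX2, hsplit]; simp only [List.append_assoc, Bool.not_true, Bool.not_false]
    · simp; omega
    · simp; omega
    · intro i j
      rw [hb, before_replicate_false]
      simp only [Nat.add_sub_cancel]
      constructor
      · rintro (h | ⟨-, h1, h2⟩)
        · omega
        · refine ⟨by omega, ?_⟩
          rwa [show j - (s - t) = j + t - s by omega]
      · rintro ⟨h1, h2⟩
        right
        refine ⟨by omega, by omega, ?_⟩
        rwa [show j + t - s = j - (s - t) by omega]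
    · intro i hi hcut
      apply hcut.2
      rw [hb]; left; exact hi
    · intro htr
      constructor
      · rw [hb]; left; omega
      · rw [hb]; push Not
        exact ⟨by omega, fun _ h => by omega⟩
  | false =>
    simp only [Bool.not_false] at hX1' ⊢
    have hc1 : X.count false = t + X1.count false := by rw [hX1]; simp
    have hc2 : X.count true = X1.count true := by rw [hX1]; simp
    obtain ⟨s, X2, hX2, hX2'⟩ := exists_run true X1
    simp only [Bool.not_true] at hX2'
    have hd1 : X1.count false = X2.count false := by rw [hX2]; simp
    have hd2 : X1.count true = s + X2.count true := by rw [hX2]; simp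
    have hb : ∀ i j, before X i j ↔ t ≤ j ∧ (i < s ∨ (s ≤ i ∧ before X2 (i - s) (j - t))) := by
      intro i j
      rw [hX1, before_replicate_false, hX2, before_replicate_true]
    have hs1 : 1 ≤ s := by
      rcases hX1' with h | ⟨w'', h⟩
      · rw [h] at hc2; simp at hc2; omega
      · rcases Nat.eq_zero_or_pos s with h' | h'
        · subst h'
          simp only [List.replicate_zero, List.nil_append] at hX2
          rcases hX2' with h'' | ⟨w3, h''⟩
          · rw [hX2, h''] at h; simp at h
          · rw [hX2, h''] at h; simp at h
        · exact h'
    have hst : t ≤ s := by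
      by_contra hcon
      push Not at hcon
      rcases hX2' with h' | ⟨w3, h'⟩
      · rw [h'] at hd2; simp at hd2; omega
      · have h3 : X2.count false ≥ 1 := by rw [h']; simp
        have e1 : ¬ before X s t := by
          rw [hb]; push Not
          intro _
          refine ⟨le_refl _, fun _ => ?_⟩
          rw [h']; simp [before]
        have e2 : ¬ before X 0 s := by rw [hb]; push Not; intro h; omega
        have e3 : before X 0 t := by
          rw [hb]
          exact ⟨le_refl _, Or.inl (by omega)⟩
        exact (hX 0 s t (by omega) (by omega) (by omega)).2 e2 e1 e3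
    have hsplit : List.replicate s true = List.replicate t true ++ List.replicate (s - t) true := by
      rw [← List.replicate_add]; congr 1; omega
    refine ⟨false, t, List.replicate (s - t) true ++ X2, ht, by omega, ?_, ?_, ?_, ?_, ?_, ?_⟩
    · rw [hX1, hX2, hsplit]; simp only [List.append_assoc, Bool.not_true, Bool.not_false]
    · simp; omega
    · simp; omega
    · intro i j
      rw [hb, before_replicate_true]
      simp only [Nat.add_sub_cancel]
      constructor
      · rintro ⟨-, h | ⟨h1, h2⟩⟩
        · left; omega
        · right
          refine ⟨by omega, ?_⟩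
          rwa [show i - (s - t) = i + t - s by omega]
      · rintro (h | ⟨h1, h2⟩)
        · exact ⟨by omega, Or.inl (by omega)⟩
        · refine ⟨by omega, Or.inr ⟨by omega, ?_⟩⟩
          rwa [show i + t - s = i - (s - t) by omega]
    · intro i hi hcut
      have := hcut.1
      rw [hb] at this
      omega
    · intro htr
      constructor
      · rw [hb]; exact ⟨by omega, Or.inl (by omega)⟩
      · rw [hb]; push Not; intro h; omega

lemma splits_of_cuts : ∀ (r : ℕ) (X Y : List Bool), X.count true = r → X.count false = r →
    Y.count true = r → Y.count false = r → Tri r X X X → Tri r Y Y Y →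
    (∀ i, i + 1 < r → (Cut X i ↔ Cut Y i)) → ∃ μ, SplitsAs X μ ∧ SplitsAs Y μ := by
  intro r
  induction r using Nat.strong_induction_on with
  | _ r ih =>
    intro X Y h1 h2 h3 h4 hX hY hcut
    rcases Nat.eq_zero_or_pos r with hr | hr
    · subst hr
      have e1 : X = [] := by
        cases X with
        | nil => rfl
        | cons c X => cases c <;> simp at h1 h2
      have e2 : Y = [] := by
        cases Y with
        | nil => rfl
        | cons c Y => cases c <;> simp at h3 h4
      subst e1; subst e2
      exact ⟨[], SplitsAs.nil, SplitsAs.nil⟩
    · obtain ⟨c, t, X', ht, htr, hXe, hX1, hX2, hXb, hXn, hXc⟩ := structure_lemma hr h1 h2 hX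
      obtain ⟨d, u, Y', hu, hur, hYe, hY1, hY2, hYb, hYn, hYc⟩ := structure_lemma hr h3 h4 hY
      have htu : t = u := by
        rcases lt_trichotomy t u with h | h | h
        · exfalso
          have e1 := hXc (by omega)
          rw [hcut _ (by omega)] at e1
          exact hYn (t - 1) (by omega) e1
        · exact h
        · exfalso
          have e1 := hYc (by omega)
          rw [← hcut _ (by omega)] at e1
          exact hXn (u - 1) (by omega) e1
      subst htu
      have hX' : Tri (r - t) X' X' X' := by
        intro i j l hi hj hl
        have := hX (i + t) (j + t) (l + t) (by omega) (by omega) (by omega)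
        rwa [hXb, hXb, hXb] at this
      have hY' : Tri (r - t) Y' Y' Y' := by
        intro i j l hi hj hl
        have := hY (i + t) (j + t) (l + t) (by omega) (by omega) (by omega)
        rwa [hYb, hYb, hYb] at this
      obtain ⟨μ, hμ1, hμ2⟩ := ih (r - t) (by omega) X' Y' hX1 hX2 hY1 hY2 hX' hY' (by
        intro i hi
        have := hcut (i + t) (by omega)
        unfold Cut at this ⊢
        rw [show i + t + 1 = (i + 1) + t by omega] at this
        rwa [hXb, hXb, hYb, hYb] at this)
      refine ⟨t :: μ, ?_, ?_⟩
      · rw [hXe]; exact SplitsAs.cons c t X' μ ht hμ1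
      · rw [hYe]; exact SplitsAs.cons d t Y' μ ht hμ2

lemma cut_of_cut {r : ℕ} {X Y : List Bool} (h1 : Tri r Y X X) (h2 : Tri r X X Y) {i : ℕ}
    (hi : i + 1 < r) (hX : Cut X i) : Cut Y i := by
  by_contra hY
  unfold Cut at hX hY
  obtain ⟨hX1, hX2⟩ := hX
  have hi' : i < r := by omega
  by_cases h : before Y (i + 1) i
  · have e1 : ¬ before X i i := fun h' => hX2 ((h1 _ _ _ hi hi' hi').1 h h')
    have e2 : before X (i + 1) (i + 1) := (h1 _ _ _ hi hi' hi).1 h hX1
    exact hX2 ((h2 _ _ _ hi hi hi').1 e2 h)
  · have h' : ¬ before Y i (i + 1) := fun h'' => hY ⟨h'', h⟩
    have e1 : ¬ before X i i := (h1 _ _ _ hi' hi hi').2 h' hX2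
    exact (h2 _ _ _ hi' hi' hi).2 e1 h' hX1

/-- **Pair lemma.** If all six two-coloured triples corresponding to the permutations in `S₃` are
realisable then the words `X` and `Y` split with the same composition. -/
theorem pair_lemma {r : ℕ} {X Y : List Bool} (c1 : X.count true = r) (c2 : X.count false = r)
    (c3 : Y.count true = r) (c4 : Y.count false = r)
    (h1 : Tri r X X X) (h2 : Tri r Y Y Y) (h3 : Tri r Y X X) (h4 : Tri r X X Y)
    (h5 : Tri r X Y Y) (h6 : Tri r Y Y X) : ∃ μ, SplitsAs X μ ∧ SplitsAs Y μ :=
  splits_of_cuts r X Y c1 c2 c3 c4 h1 h2
    (fun _ hi => ⟨fun h => cut_of_cut h3 h4 hi h, fun h => cut_of_cut h5 h6 hi h⟩)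

end Pool.Agent.Helper98.OM
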