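import Pool.Agent.Helper98.OrdPattern

/-!
# Words of pairs of finite sets
-/

namespace Pool.Agent.Helper98.OM

open Finset

/-- The `i`-th smallest element of `e` (counting from `0`). -/
noncomputable def nth (e : Finset ℕ) (i : ℕ) : ℕ := (e.sort (· ≤ ·)).getD i 0

lemma getD_mem {l : List ℕ} {i : ℕ} (h : i < l.length) : l.getD i 0 ∈ l := by
  rw [List.getD_eq_getElem _ _ h]
  exact List.getElem_mem h

lemma before_map_filter (p : ℕ → Bool) : ∀ (l : List ℕ), l.Pairwise (· < ·) → ∀ i j,
    i < (l.filter p).length → j < (l.filter (fun x => !p x)).length →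
    (before (l.map p) i j ↔
      (l.filter p).getD i 0 < (l.filter (fun x => !p x)).getD j 0) := by
  intro l
  induction l with
  | nil => intro _ i j hi; simp at hi
  | cons x l ih =>
    intro hl i j hi hj
    rw [List.pairwise_cons] at hl
    cases hx : p x with
    | true =>
      have e1 : (x :: l).filter p = x :: l.filter p := by simp [hx]
      have e2 : (x :: l).filter (fun x => !p x) = l.filter (fun x => !p x) := by simp [hx]
      rw [e1] at hi ⊢
      rw [e2] at hj ⊢
      rw [List.map_cons, hx]
      cases i with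
      | zero =>
        simp only [before_true_zero, List.getD_cons_zero, true_iff]
        have := getD_mem hj
        exact hl.1 _ (List.mem_of_mem_filter this)
      | succ i =>
        rw [before_true_succ, List.getD_cons_succ]
        exact ih hl.2 i j (by simpa using hi) hj
    | false =>
      have e1 : (x :: l).filter p = l.filter p := by simp [hx]
      have e2 : (x :: l).filter (fun x => !p x) = x :: l.filter (fun x => !p x) := by simp [hx]
      rw [e1] at hi ⊢
      rw [e2] at hj ⊢
      rw [List.map_cons, hx]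
      cases j with
      | zero =>
        simp only [before_false_zero, List.getD_cons_zero, false_iff, not_lt]
        have := getD_mem hi
        exact (hl.1 _ (List.mem_of_mem_filter this)).le
      | succ j =>
        rw [before_false_succ, List.getD_cons_succ]
        exact ih hl.2 i j hi (by simpa using hj)

lemma pairwise_sort_lt (e : Finset ℕ) : (e.sort (· ≤ ·)).Pairwise (· < ·) :=
  (Finset.sortedLT_sort e).pairwise

lemma filter_sort_left (e f : Finset ℕ) :
    ((e ∪ f).sort (· ≤ ·)).filter (fun x => decide (x ∈ e)) = e.sort (· ≤ ·) := by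
  apply List.Pairwise.eq_of_mem_iff (r := (· < ·))
  · exact (pairwise_sort_lt _).filter _
  · exact pairwise_sort_lt _
  · intro a
    simp only [List.mem_filter, Finset.mem_sort, Finset.mem_union, decide_eq_true_eq]
    tauto

lemma filter_sort_right {e f : Finset ℕ} (h : Disjoint e f) :
    ((e ∪ f).sort (· ≤ ·)).filter (fun x => !decide (x ∈ e)) = f.sort (· ≤ ·) := by
  apply List.Pairwise.eq_of_mem_iff (r := (· < ·))
  · exact (pairwise_sort_lt _).filter _
  · exact pairwise_sort_lt _
  · intro a
    simp only [List.mem_filter, Finset.mem_sort, Finset.mem_union, Bool.not_eq_true',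
      decide_eq_false_iff_not]
    have h' : a ∈ e → a ∉ f := fun h1 => Finset.disjoint_left.1 h h1
    tauto

lemma before_word {e f : Finset ℕ} (h : Disjoint e f) {i j : ℕ} (hi : i < e.card)
    (hj : j < f.card) : before (word e f) i j ↔ nth e i < nth f j := by
  have h1 := before_map_filter (fun x => decide (x ∈ e)) _ (pairwise_sort_lt (e ∪ f)) i j
    (by rw [filter_sort_left, Finset.length_sort]; exact hi)
    (by rw [filter_sort_right h, Finset.length_sort]; exact hj)
  rw [filter_sort_left, filter_sort_right h] at h1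
  exact h1

lemma count_true_word (e f : Finset ℕ) : (word e f).count true = e.card := by
  rw [word, List.count, List.countP_map, List.countP_eq_length_filter]
  have : (((e ∪ f).sort (· ≤ ·)).filter ((fun b => b == true) ∘ fun x => decide (x ∈ e)))
      = e.sort (· ≤ ·) := by
    rw [← filter_sort_left e f]
    congr 1
    funext x
    simp
  rw [this, Finset.length_sort]

lemma count_false_word {e f : Finset ℕ} (h : Disjoint e f) :
    (word e f).count false = f.card := by
  rw [word, List.count, List.countP_map, List.countP_eq_length_filter]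
  have : (((e ∪ f).sort (· ≤ ·)).filter ((fun b => b == false) ∘ fun x => decide (x ∈ e)))
      = f.sort (· ≤ ·) := by
    rw [← filter_sort_right h]
    congr 1
    funext x
    simp
  rw [this, Finset.length_sort]

lemma length_word {e f : Finset ℕ} (h : Disjoint e f) :
    (word e f).length = e.card + f.card := by
  rw [word, List.length_map, Finset.length_sort, Finset.card_union_of_disjoint h]

lemma nth_mem {e : Finset ℕ} {i : ℕ} (hi : i < e.card) : nth e i ∈ e := by
  have : nth e i ∈ e.sort (· ≤ ·) := getD_mem (by rw [Finset.length_sort]; exact hi)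
  exact (Finset.mem_sort _).1 this

lemma exists_nth {e : Finset ℕ} {x : ℕ} (hx : x ∈ e) : ∃ i < e.card, nth e i = x := by
  have : x ∈ e.sort (· ≤ ·) := (Finset.mem_sort _).2 hx
  obtain ⟨i, hi, rfl⟩ := List.getElem_of_mem this
  rw [Finset.length_sort] at hi
  refine ⟨i, hi, ?_⟩
  rw [nth, List.getD_eq_getElem _ _ (by rw [Finset.length_sort]; exact hi)]

lemma nth_lt_nth {e : Finset ℕ} {i j : ℕ} (hij : i < j) (hj : j < e.card) :
    nth e i < nth e j := by
  have h1 : i < (e.sort (· ≤ ·)).length := by rw [Finset.length_sort]; omega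
  have h2 : j < (e.sort (· ≤ ·)).length := by rw [Finset.length_sort]; omega
  rw [nth, nth, List.getD_eq_getElem _ _ h1, List.getD_eq_getElem _ _ h2]
  exact List.pairwise_iff_getElem.1 (pairwise_sort_lt e) i j h1 h2 hij

lemma nth_zero_le {e : Finset ℕ} {x : ℕ} (hx : x ∈ e) : nth e 0 ≤ x := by
  obtain ⟨i, hi, rfl⟩ := exists_nth hx
  rcases Nat.eq_zero_or_pos i with h | h
  · rw [h]
  · exact (nth_lt_nth h hi).le

lemma tri_word {r : ℕ} {e f g : Finset ℕ} (he : e.card = r) (hf : f.card = r) (hg : g.card = r)
    (hef : Disjoint e f) (heg : Disjoint e g) (hfg : Disjoint f g) :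
    Tri r (word e f) (word e g) (word f g) := by
  intro i j l hi hj hl
  have n1 : nth e i ≠ nth f j := fun h =>
    Finset.disjoint_left.1 hef (nth_mem (he ▸ hi)) (h ▸ nth_mem (hf ▸ hj))
  have n2 : nth f j ≠ nth g l := fun h =>
    Finset.disjoint_left.1 hfg (nth_mem (hf ▸ hj)) (h ▸ nth_mem (hg ▸ hl))
  rw [before_word hef (he ▸ hi) (hf ▸ hj), before_word heg (he ▸ hi) (hg ▸ hl),
    before_word hfg (hf ▸ hj) (hg ▸ hl)]
  omega

lemma pattern_eq_word {e f : Finset ℕ} (he : 0 < e.card) (h : nth e 0 < nth f 0) :
    pattern e f = word e f := by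
  rw [pattern, if_pos]
  exact ⟨nth e 0, nth_mem he, fun y hy => lt_of_lt_of_le h (nth_zero_le hy)⟩

lemma pattern_eq_word' {e f : Finset ℕ} (he : 0 < e.card) (h : nth e 0 < nth f 0) :
    pattern f e = word e f := by
  rw [pattern, if_neg]
  rintro ⟨x, hx, h'⟩
  have h1 := nth_zero_le hx
  have := h' _ (nth_mem he)
  omega

lemma word_image {e f : Finset ℕ} {φ : ℕ → ℕ} (hφ : StrictMonoOn φ (e ∪ f : Finset ℕ)) :
    word (e.image φ) (f.image φ) = word e f := by
  have hinj : Set.InjOn φ (e ∪ f : Finset ℕ) := hφ.injOn
  have h1 : (e.image φ ∪ f.image φ).sort (· ≤ ·) = ((e ∪ f).sort (· ≤ ·)).map φ := by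
    apply List.Pairwise.eq_of_mem_iff (r := (· < ·))
    · exact pairwise_sort_lt _
    · rw [List.pairwise_map]
      refine List.Pairwise.imp_of_mem ?_ (pairwise_sort_lt (e ∪ f))
      intro a b ha hb hab
      exact hφ (by simpa using ha) (by simpa using hb) hab
    · intro a
      simp only [Finset.mem_sort, Finset.mem_union, Finset.mem_image, List.mem_map]
      constructor
      · rintro (⟨x, hx, rfl⟩ | ⟨x, hx, rfl⟩)
        · exact ⟨x, Or.inl hx, rfl⟩
        · exact ⟨x, Or.inr hx, rfl⟩
      · rintro ⟨x, hx | hx, rfl⟩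
        · exact Or.inl ⟨x, hx, rfl⟩
        · exact Or.inr ⟨x, hx, rfl⟩
  rw [word, h1, List.map_map, word]
  apply List.map_congr_left
  intro x hx
  simp only [Function.comp_apply, decide_eq_decide, Finset.mem_image]
  have hx' : x ∈ e ∪ f := (Finset.mem_sort _).1 hx
  constructor
  · rintro ⟨y, hy, he⟩
    have := hinj (by simpa using Or.inl hy) (by simpa using hx') he
    rwa [← this]
  · intro h
    exact ⟨x, h, rfl⟩

lemma pattern_image {e f : Finset ℕ} {φ : ℕ → ℕ} (hφ : StrictMonoOn φ (e ∪ f : Finset ℕ)) :
    pattern (e.image φ) (f.image φ) = pattern e f := by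
  have h1 := word_image hφ
  have h2 : word (f.image φ) (e.image φ) = word f e := by
    apply word_image
    rwa [Finset.union_comm]
  have h3 : (∃ x ∈ e.image φ, ∀ y ∈ f.image φ, x < y) ↔ ∃ x ∈ e, ∀ y ∈ f, x < y := by
    constructor
    · rintro ⟨x, hx, h⟩
      obtain ⟨x', hx', rfl⟩ := Finset.mem_image.1 hx
      refine ⟨x', hx', fun y hy => ?_⟩
      have := h _ (Finset.mem_image_of_mem φ hy)
      exact (hφ.lt_iff_lt (by simpa using Or.inl hx') (by simpa using Or.inr hy)).1 this
    · rintro ⟨x, hx, h⟩
      refine ⟨φ x, Finset.mem_image_of_mem φ hx, fun y hy => ?_⟩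
      obtain ⟨y', hy', rfl⟩ := Finset.mem_image.1 hy
      exact hφ (by simpa using Or.inl hx) (by simpa using Or.inr hy') (h y' hy')
  unfold pattern
  by_cases h : ∃ x ∈ e, ∀ y ∈ f, x < y
  · rw [if_pos h, if_pos (h3.2 h), h1]
  · rw [if_neg h, if_neg (fun h' => h (h3.1 h')), h2]

end Pool.Agent.Helper98.OM
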